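import Pool.Agent.Lib.MP_5c318e_ag.S.PBas
import Pool.Agent.Lib.MP_5c318e_ag.RD.RCalc

/-! Parallel structures along the slices `w = const` of a Riemann domain with coordinates `(w, x)`,
tensor powers of matrices, diagonals of tensors, horizontal tensors. -/

set_option autoImplicit false

namespace Pool.Agent.Lib.MP_5c318e_ag.Fl

open Filter Topology Matrix

noncomputable section

/-- the tensor power of a matrix -/
def tp (κ : Type) [Fintype κ] {r R : Type} [CommRing R] (A : Matrix r r R) :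
    Matrix (κ → r) (κ → r) R := Matrix.of fun I J => ∏ k, A (I k) (J k)

/-- the diagonal of a tensor, as a polynomial -/
def dg {κ r R : Type} [Fintype κ] [DecidableEq κ] [Fintype r] [CommRing R] (U : (κ → r) → R) :
    MvPolynomial r R := ∑ I, MvPolynomial.C (U I) * ∏ k, MvPolynomial.X (I k)

/-- the size function of `RD.Mod` -/
def mg {ι : Type} [Fintype ι] (g : MvPolynomial ι ℂ) (z : ι → ℂ) : ℝ :=
  (1 + ‖z‖) / ‖MvPolynomial.eval z g‖ + (1 + ‖z‖)

/-- the first block of coordinates -/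
def wc {ω γ : Type} (z : ω ⊕ γ → ℂ) : ω → ℂ := fun i => z (Sum.inl i)

variable {ω γ : Type} [Fintype ω] [Fintype γ] {S : Type} [TopologicalSpace S] [MeasurableSpace S]

/-- off `g = 0`: a groupoid `Iso` of matrices of moderate size with finite isotropy, and local
holomorphic frames `A p` that are parallel along the slices -/
structure Par (D : RD (ω ⊕ γ) S) (g : MvPolynomial (ω ⊕ γ) ℂ) (r : Type) [Fintype r]
    [DecidableEq r] where
  Iso : S → S → Set (Matrix r r ℂ)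
  A : S → (ω ⊕ γ → ℂ) → Matrix r r ℂ
  one : ∀ y, 1 ∈ Iso y y
  mul : ∀ {y y' y'' : S} {T T' : Matrix r r ℂ}, T ∈ Iso y y' → T' ∈ Iso y' y'' → T' * T ∈ Iso y y''
  inv : ∀ {y y' : S} {T : Matrix r r ℂ}, MvPolynomial.eval (D.π y) g ≠ 0 →
    MvPolynomial.eval (D.π y') g ≠ 0 → T ∈ Iso y y' → T.det ≠ 0 ∧ T⁻¹ ∈ Iso y' y
  fin : ∀ y, MvPolynomial.eval (D.π y) g ≠ 0 → (Iso y y).Finite
  bd : ∃ (c : ℝ) (N : ℕ), ∀ y y', MvPolynomial.eval (D.π y) g ≠ 0 →
    MvPolynomial.eval (D.π y') g ≠ 0 → ∀ T ∈ Iso y y', ∀ i j,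
      ‖T i j‖ ≤ c * (mg g (D.π y) * mg g (D.π y')) ^ N
  ana : ∀ p, MvPolynomial.eval (D.π p) g ≠ 0 → ∀ i j, AnalyticAt ℂ (fun z => A p z i j) (D.π p)
  det : ∀ p, MvPolynomial.eval (D.π p) g ≠ 0 → (A p (D.π p)).det ≠ 0
  par : ∀ p, MvPolynomial.eval (D.π p) g ≠ 0 → ∀ᶠ z in 𝓝 (D.π p), ∀ᶠ z' in 𝓝 z, wc z' = wc z →
    A p z' * (A p z)⁻¹ ∈ Iso (D.sec p z) (D.sec p z')

namespace Par

variable {D : RD (ω ⊕ γ) S} {g : MvPolynomial (ω ⊕ γ) ℂ} {r : Type} [Fintype r] [DecidableEq r]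
  (P : Par D g r)

/-- the transport from `p` to a nearby point `q` of the same slice -/
def tr (p q : S) : Matrix r r ℂ := P.A p (D.π q) * (P.A p (D.π p))⁻¹

/-- horizontal tensor fields -/
def Hor (κ : Type) [Fintype κ] [DecidableEq κ] (u : S → (κ → r) → ℂ) : Prop :=
  ∀ p, MvPolynomial.eval (D.π p) g ≠ 0 → ∀ᶠ q in 𝓝 p, wc (D.π q) = wc (D.π p) →
    u q = tp κ (P.tr p q) *ᵥ u p

end Par

end

end Pool.Agent.Lib.MP_5c318e_ag.Fl
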