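import Pool.Agent.Lib.MP_5c318e_ag.P.FDefs
import Pool.Agent.Lib.MP_5c318e_ag.C.Pol

/-! Tensor powers of matrices, sizes, analytic matrices, the germ transport of a parallel
structure, the induced structure on tensors. -/

set_option autoImplicit false
set_option linter.unusedSectionVars false

namespace Pool.Agent.Lib.MP_5c318e_ag.Fl

open Filter Topology Matrix

noncomputable section

section tp

variable {κ r R : Type} [Fintype κ] [DecidableEq κ] [Fintype r] [DecidableEq r] [CommRing R]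

theorem tp_apply (A : Matrix r r R) (I J : κ → r) : tp κ A I J = ∏ k, A (I k) (J k) := rfl

theorem tp_mul (A B : Matrix r r R) : tp κ (A * B) = tp κ A * tp κ B := by
  ext I J
  simp only [tp_apply, Matrix.mul_apply]
  rw [Finset.prod_univ_sum, Fintype.piFinset_univ]
  exact Finset.sum_congr rfl fun L _ => Finset.prod_mul_distrib

theorem tp_one : tp κ (1 : Matrix r r R) = 1 := by
  ext I J
  by_cases h : I = J
  · subst h; simp [tp_apply]
  · obtain ⟨k, hk⟩ := Function.ne_iff.1 h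
    rw [tp_apply, one_apply_ne h]
    exact Finset.prod_eq_zero (Finset.mem_univ k) (one_apply_ne hk)

theorem tp_pure (A : Matrix r r R) (v : κ → r → R) :
    (tp κ A *ᵥ fun I => ∏ k, v k (I k)) = fun I => ∏ k, (A *ᵥ v k) (I k) := by
  funext I
  simp only [mulVec, dotProduct, tp_apply]
  rw [Finset.prod_univ_sum, Fintype.piFinset_univ]
  exact Finset.sum_congr rfl fun L _ => Finset.prod_mul_distrib.symm

theorem tp_inv {A : Matrix r r ℂ} (h : A.det ≠ 0) : (tp κ A).det ≠ 0 ∧ (tp κ A)⁻¹ = tp κ A⁻¹ := by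
  have e : tp κ A⁻¹ * tp κ A = 1 := by rw [← tp_mul, nonsing_inv_mul _ (Ne.isUnit h), tp_one]
  exact ⟨det_ne_zero_of_left_inverse e, inv_eq_left_inv e⟩

theorem tp_tp {β : Type} [Fintype β] [DecidableEq β] (A : Matrix r r R) (U : (κ → r) → R) :
    (tp (β × κ) A *ᵥ fun I => ∏ b, U fun k => I (b, k)) =
      fun I => ∏ b, (tp κ A *ᵥ U) fun k => I (b, k) := by
  have := tp_pure (κ := β) (tp κ A) fun _ => U
  funext I
  rw [← congrFun this fun b k => I (b, k)]
  simp only [mulVec, dotProduct, tp_apply]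
  exact Fintype.sum_equiv (Equiv.curry β κ r) _ _ fun J => by
    rw [Fintype.prod_prod_type]; rfl

theorem eval_dg (ξ : r → R) (U : (κ → r) → R) :
    MvPolynomial.eval ξ (dg U) = ∑ I, U I * ∏ k, ξ (I k) := by
  simp [dg, map_sum, map_prod]

end tp

section size

variable {ι : Type} [Fintype ι]

theorem mg_ge (g : MvPolynomial ι ℂ) (z : ι → ℂ) : 1 + ‖z‖ ≤ mg g z :=
  le_add_of_nonneg_left (by positivity)

theorem one_le_mg (g : MvPolynomial ι ℂ) (z : ι → ℂ) : 1 ≤ mg g z :=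
  (le_add_of_nonneg_right (norm_nonneg z)).trans (mg_ge g z)

theorem inv_le_mg (g : MvPolynomial ι ℂ) (z : ι → ℂ) : ‖MvPolynomial.eval z g‖⁻¹ ≤ mg g z := by
  have : ‖MvPolynomial.eval z g‖⁻¹ ≤ (1 + ‖z‖) / ‖MvPolynomial.eval z g‖ := by
    rw [div_eq_mul_inv]
    exact le_mul_of_one_le_left (by positivity) (by simp)
  exact this.trans (le_add_of_nonneg_right (by positivity))

theorem mg_mul (g h : MvPolynomial ι ℂ) : ∃ (A : ℝ) (N : ℕ), 0 ≤ A ∧ ∀ z,
    MvPolynomial.eval z (g * h) ≠ 0 → mg g z ≤ A * mg (g * h) z ^ N := by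
  obtain ⟨A, N, hA, H⟩ := pl_mv h
  refine ⟨A + 1, N + 1, by positivity, fun z hz => ?_⟩
  have m1 := one_le_mg (g * h) z
  have m2 := mg_ge (g * h) z
  have h1 := (H _ m1 z z (by linarith) (by linarith)).1
  have hh : 0 < ‖MvPolynomial.eval z h‖ := norm_pos_iff.2 (right_ne_zero_of_mul (by simpa using hz))
  have e : (1 + ‖z‖) / ‖MvPolynomial.eval z g‖ =
      ‖MvPolynomial.eval z h‖ * ((1 + ‖z‖) / ‖MvPolynomial.eval z (g * h)‖) := by
    rw [map_mul, norm_mul]; field_simp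
  have m3 : (1 + ‖z‖) / ‖MvPolynomial.eval z (g * h)‖ ≤ mg (g * h) z :=
    le_add_of_nonneg_right (by positivity)
  have m4 : mg (g * h) z ≤ mg (g * h) z ^ (N + 1) := le_self_pow₀ m1 (by simp)
  have := mul_le_mul h1 m3 (by positivity) (by positivity)
  rw [mg, e, add_mul, one_mul, pow_succ, ← mul_assoc]
  rw [pow_succ] at m4
  linarith

/-- balls on which a polynomial stays large -/
theorem mg_ball (g : MvPolynomial ι ℂ) : ∃ (c : ℝ) (N : ℕ), 0 < c ∧ ∀ z,
    MvPolynomial.eval z g ≠ 0 → ∀ a, ‖a - z‖ ≤ c / mg g z ^ N →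
      MvPolynomial.eval a g ≠ 0 ∧ mg g a ≤ 4 * mg g z := by
  obtain ⟨A, N, hA, H⟩ := pl_mv g
  refine ⟨1 / (2 * A + 1), N + 1, by positivity, fun z hz a ha => ?_⟩
  have m1 := one_le_mg g z
  have m2 := mg_ge g z
  have m3 := inv_le_mg g z
  have h0 := norm_pos_iff.2 hz
  have p1 : 1 ≤ mg g z ^ (N + 1) := one_le_pow₀ m1
  rw [div_div, le_div_iff₀ (by positivity)] at ha
  have n0 := norm_nonneg (a - z)
  have k1 : ‖a - z‖ ≤ 1 := by
    have : 1 ≤ (2 * A + 1) * mg g z ^ (N + 1) := one_le_mul_of_one_le_of_one_le (by linarith) p1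
    nlinarith
  have k2 : ‖a‖ ≤ 1 + ‖z‖ := by linarith [norm_sub_norm_le a z]
  have k3 := (H _ m1 a z (by linarith) (by linarith)).2
  have k4 : 1 ≤ mg g z * ‖MvPolynomial.eval z g‖ := by
    rwa [inv_le_iff_one_le_mul₀ h0] at m3
  have k5 : 2 * (A * mg g z ^ N * ‖a - z‖) ≤ ‖MvPolynomial.eval z g‖ := by
    have q : 0 ≤ ‖a - z‖ * mg g z ^ (N + 1) := by positivity
    have : 2 * (A * mg g z ^ N * ‖a - z‖) * mg g z ≤ ‖MvPolynomial.eval z g‖ * mg g z := by
      rw [pow_succ] at ha q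
      nlinarith
    exact le_of_mul_le_mul_right this (by positivity)
  have k6 := norm_sub_norm_le (MvPolynomial.eval z g) (MvPolynomial.eval a g)
  rw [norm_sub_rev] at k6
  have k7 : ‖MvPolynomial.eval z g‖ ≤ 2 * ‖MvPolynomial.eval a g‖ := by linarith
  have h1 : 0 < ‖MvPolynomial.eval a g‖ := by linarith
  refine ⟨norm_pos_iff.1 h1, ?_⟩
  have k8 : (1 + ‖a‖) / ‖MvPolynomial.eval a g‖ ≤ 4 * ((1 + ‖z‖) / ‖MvPolynomial.eval z g‖) := by
    rw [← mul_div_assoc, div_le_div_iff₀ h1 h0]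
    have : (1 + ‖a‖) * ‖MvPolynomial.eval z g‖ ≤ (2 * (1 + ‖z‖)) * (2 * ‖MvPolynomial.eval a g‖) :=
      mul_le_mul (by linarith [norm_nonneg z]) k7 h0.le (by positivity)
    linarith
  simp only [mg]
  linarith [norm_nonneg z]

end size

section ana

variable {E r : Type} [NormedAddCommGroup E] [NormedSpace ℂ E] [Fintype r] [DecidableEq r]
  {A B : E → Matrix r r ℂ} {x : E}

/-- matrices with analytic entries -/
def AnM (A : E → Matrix r r ℂ) (x : E) : Prop := ∀ i j, AnalyticAt ℂ (fun z => A z i j) x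

theorem AnM.const (M : Matrix r r ℂ) : AnM (fun _ : E => M) x := fun _ _ => analyticAt_const

theorem AnM.mul (hA : AnM A x) (hB : AnM B x) : AnM (fun z => A z * B z) x := fun i j => by
  simp only [Matrix.mul_apply]
  exact Finset.analyticAt_fun_sum _ fun k _ => (hA i k).fun_mul (hB k j)

theorem AnM.det (hA : AnM A x) : AnalyticAt ℂ (fun z => (A z).det) x := by
  simp only [det_apply']
  exact Finset.analyticAt_fun_sum _ fun σ _ => analyticAt_const.fun_mul
    (Finset.analyticAt_fun_prod _ fun i _ => hA _ _)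

theorem AnM.inv (hA : AnM A x) (h : (A x).det ≠ 0) : AnM (fun z => (A z)⁻¹) x := fun i j => by
  simp only [inv_def, Ring.inverse_eq_inv', Matrix.smul_apply, smul_eq_mul, adjugate_apply]
  refine (hA.det.fun_inv h).fun_mul (AnM.det fun a b => ?_)
  by_cases e : a = j
  · subst e; simpa only [updateRow_self] using analyticAt_const
  · simpa only [updateRow_ne e] using hA a b

theorem AnM.ev (hA : AnM A x) : ∀ᶠ z in 𝓝 x, AnM A z :=
  eventually_all.2 fun i => eventually_all.2 fun j => (hA i j).eventually_analyticAt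

theorem AnM.cont (hA : AnM A x) : ContinuousAt A x :=
  continuousAt_pi.2 fun i => continuousAt_pi.2 fun j => (hA i j).continuousAt

theorem AnM.comp {F : Type} [NormedAddCommGroup F] [NormedSpace ℂ F] {f : F → E} {y : F}
    (hA : AnM A (f y)) (hf : AnalyticAt ℂ f y) : AnM (fun z => A (f z)) y :=
  fun i j => AnalyticAt.comp (g := fun z => A z i j) (hA i j) hf

theorem AnM.det_ev (hA : AnM A x) (h : (A x).det ≠ 0) : ∀ᶠ z in 𝓝 x, (A z).det ≠ 0 :=
  hA.det.continuousAt.eventually_ne h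

end ana

/-- two germs that tend to the identity and differ by an element of a finite set agree -/
theorem uniq_germ {α r : Type} [Fintype r] [DecidableEq r] {l : Filter α}
    {F : Set (Matrix r r ℂ)} (hF : F.Finite) {T T' : α → Matrix r r ℂ} (h : Tendsto T l (𝓝 1))
    (h' : Tendsto T' l (𝓝 1)) : ∀ᶠ t in l, ∀ X ∈ F, T' t = T t * X → T' t = T t := by
  refine (eventually_all_finite hF).2 fun X _ => ?_
  by_cases e : X = 1
  · exact Eventually.of_forall fun t ht => by rw [ht, e, mul_one]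
  · have : Tendsto (fun t => T' t - T t * X) l (𝓝 (1 - 1 * X)) := h'.sub (h.mul_const X)
    filter_upwards [this.eventually_ne (b₂ := 0) (by rw [one_mul, sub_ne_zero]; exact Ne.symm e)]
      with t ht h1
    exact absurd (sub_eq_zero.2 h1) ht

namespace Par

variable {ω γ : Type} [Fintype ω] [Fintype γ] {S : Type} [TopologicalSpace S] [MeasurableSpace S]
  [BorelSpace S] {D : RD (ω ⊕ γ) S} {g : MvPolynomial (ω ⊕ γ) ℂ} {r : Type} [Fintype r]
  [DecidableEq r] (P : Par D g r)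

theorem ne_ev {p : S} (hp : MvPolynomial.eval (D.π p) g ≠ 0) :
    ∀ᶠ q in 𝓝 p, MvPolynomial.eval (D.π q) g ≠ 0 :=
  ((mv_cont g).comp D.cont_π).continuousAt.eventually_ne hp

theorem tr_self {p : S} (hp : MvPolynomial.eval (D.π p) g ≠ 0) : P.tr p p = 1 :=
  mul_nonsing_inv _ (P.det p hp).isUnit

/-- `par` upstairs -/
theorem par' {p : S} (hp : MvPolynomial.eval (D.π p) g ≠ 0) : ∀ᶠ q in 𝓝 p, ∀ᶠ q' in 𝓝 q,
    wc (D.π q') = wc (D.π q) → P.A p (D.π q') * (P.A p (D.π q))⁻¹ ∈ P.Iso q q' := by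
  filter_upwards [D.cont_π.continuousAt.eventually (P.par p hp),
    ((D.ch p).open_source.eventually_mem (D.mem_src p)).eventually_nhds] with q h1 h2
  filter_upwards [D.cont_π.continuousAt.eventually h1, h2] with q' h3 h4 e
  have := h3 e
  rwa [RD.sec_π h4, RD.sec_π h2.self_of_nhds] at this

theorem tr_iso {p : S} (hp : MvPolynomial.eval (D.π p) g ≠ 0) :
    ∀ᶠ q in 𝓝 p, wc (D.π q) = wc (D.π p) → P.tr p q ∈ P.Iso p q := (P.par' hp).self_of_nhds

theorem tend {p q : S} (h : AnM (P.A p) (D.π q)) (h0 : (P.A p (D.π q)).det ≠ 0) :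
    Tendsto (fun q' => P.A p (D.π q') * (P.A p (D.π q))⁻¹) (𝓝 q) (𝓝 1) := by
  rw [← mul_nonsing_inv _ h0.isUnit]
  exact (h.cont.tendsto.comp D.cont_π.continuousAt).mul_const _

/-- the transport can be computed in the frame of a nearby point -/
theorem tr_eq {p : S} (hp : MvPolynomial.eval (D.π p) g ≠ 0) : ∀ᶠ q in 𝓝 p, ∀ᶠ q' in 𝓝 q,
    wc (D.π q') = wc (D.π q) → P.tr q q' = P.A p (D.π q') * (P.A p (D.π q))⁻¹ := by
  have a : AnM (P.A p) (D.π p) := P.ana p hp
  filter_upwards [P.par' hp, ne_ev hp, D.cont_π.continuousAt.eventually a.ev,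
    D.cont_π.continuousAt.eventually (a.det_ev (P.det p hp))] with q h1 hq h2 h3
  filter_upwards [h1, P.tr_iso hq, ne_ev hq,
    uniq_germ (P.fin q hq) (P.tend h2 h3) (P.tend (P.ana q hq) (P.det q hq))] with q' k1 k2 k3 k4 e
  obtain ⟨d, i⟩ := P.inv hq k3 (k1 e)
  exact k4 _ (P.mul (k2 e) i) (mul_nonsing_inv_cancel_left _ _ d.isUnit).symm

/-- the cocycle rule -/
theorem tr_co {p : S} (hp : MvPolynomial.eval (D.π p) g ≠ 0) : ∀ᶠ q in 𝓝 p, ∀ᶠ q' in 𝓝 q,
    wc (D.π q') = wc (D.π q) → P.tr p q' = P.tr q q' * P.tr p q := by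
  have a : AnM (P.A p) (D.π p) := P.ana p hp
  filter_upwards [P.tr_eq hp, D.cont_π.continuousAt.eventually (a.det_ev (P.det p hp))] with q h1 h2
  filter_upwards [h1] with q' k e
  rw [k e, tr, tr, mul_assoc, nonsing_inv_mul_cancel_left _ _ h2.isUnit]

/-- the induced structure on tensors -/
def ten (κ : Type) [Fintype κ] [DecidableEq κ] : Par D g (κ → r) where
  Iso y y' := tp κ '' P.Iso y y'
  A p z := tp κ (P.A p z)
  one y := ⟨1, P.one y, tp_one⟩
  mul := by
    rintro y y' y'' _ _ ⟨T, h, rfl⟩ ⟨T', h', rfl⟩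
    exact ⟨_, P.mul h h', tp_mul _ _⟩
  inv := by
    rintro y y' _ hy hy' ⟨T, h, rfl⟩
    obtain ⟨a, b⟩ := P.inv hy hy' h
    exact ⟨(tp_inv a).1, _, b, (tp_inv a).2.symm⟩
  fin y hy := (P.fin y hy).image _
  bd := by
    obtain ⟨c, N, h⟩ := P.bd
    refine ⟨c ^ Fintype.card κ, N * Fintype.card κ, ?_⟩
    rintro y y' hy hy' _ ⟨T, hT, rfl⟩ I J
    rw [tp_apply, norm_prod, pow_mul, ← mul_pow, ← Finset.card_univ, ← Finset.prod_const]
    exact Finset.prod_le_prod (fun _ _ => norm_nonneg _) fun k _ => h y y' hy hy' T hT _ _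
  ana p hp I J := Finset.analyticAt_fun_prod _ fun k _ => P.ana p hp _ _
  det p hp := (tp_inv (P.det p hp)).1
  par p hp := by
    have a : AnM (P.A p) (D.π p) := P.ana p hp
    filter_upwards [P.par p hp, a.det_ev (P.det p hp)] with z h1 h2
    filter_upwards [h1] with z' k e
    exact ⟨_, k e, by rw [tp_mul, (tp_inv h2).2]⟩

theorem ten_tr (κ : Type) [Fintype κ] [DecidableEq κ] {p : S}
    (hp : MvPolynomial.eval (D.π p) g ≠ 0) (q : S) : (P.ten κ).tr p q = tp κ (P.tr p q) := by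
  rw [tr, tr, tp_mul, ← (tp_inv (P.det p hp)).2]; rfl

variable {P} {κ : Type} [Fintype κ] [DecidableEq κ]

theorem Hor.pow {β : Type} [Fintype β] [DecidableEq β] {u : S → (κ → r) → ℂ}
    (hu : P.Hor κ u) : P.Hor (β × κ) fun y I => ∏ b, u y fun k => I (b, k) := fun p hp => by
  filter_upwards [hu p hp] with q h e
  rw [tp_tp, h e]

end Par

end

end Pool.Agent.Lib.MP_5c318e_ag.Fl
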