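import Pool.Agent.Lib.MP_5c318e_ag.P.Ten

/-! Invariant tensors attached to one orbit of the groupoid of a parallel structure. -/

set_option autoImplicit false
set_option linter.unusedSectionVars false

namespace Pool.Agent.Lib.MP_5c318e_ag.Fl

open Filter Topology Matrix

noncomputable section

section orb

variable {r : Type} [Fintype r] [DecidableEq r]

local instance leafFin (n : ℕ) (X : Type) : Fintype (Fin n ≃ X) := Fintype.ofFinite _

/-- the symmetrised tensor product of the vectors `T a`, `T ∈ X` -/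
def orb (n : ℕ) (X : Set (Matrix r r ℂ)) (a : r → ℂ) : (Fin n → r) → ℂ :=
  ∑ e : Fin n ≃ X, fun I => ∏ k, ((e k).1 *ᵥ a) (I k)

theorem orb_mul (n : ℕ) {X Y : Set (Matrix r r ℂ)} (T : Matrix r r ℂ) (f : X ≃ Y)
    (hf : ∀ x, (f x).1 = T * x.1) (a : r → ℂ) : orb n Y a = tp (Fin n) T *ᵥ orb n X a := by
  rw [orb, orb, mulVec_sum]
  refine (Fintype.sum_equiv (Equiv.equivCongr (Equiv.refl _) f) _ _ fun e => ?_).symm
  rw [tp_pure]
  funext I
  exact Finset.prod_congr rfl fun k _ => by simp [hf]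

theorem orb_card (n : ℕ) (X : Type) : Fintype.card (Fin n ≃ X) ≤ n.factorial := by
  rcases isEmpty_or_nonempty (Fin n ≃ X) with h | ⟨⟨e⟩⟩
  · simp
  · rw [Fintype.card_congr (Equiv.equivCongr (Equiv.refl _) e.symm), ← Nat.card_eq_fintype_card,
      Nat.card_perm]
    simp

theorem orb_le (n : ℕ) {X : Set (Matrix r r ℂ)} {b : ℝ} (hb : 0 ≤ b)
    (h : ∀ T ∈ X, ∀ i j, ‖T i j‖ ≤ b) (a : r → ℂ) (I : Fin n → r) :
    ‖orb n X a I‖ ≤ n.factorial * (b * ∑ j, ‖a j‖) ^ n := by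
  rw [orb, Finset.sum_apply]
  refine (norm_sum_le _ _).trans ((Finset.sum_le_card_nsmul _ _ ((b * ∑ j, ‖a j‖) ^ n)
    fun e _ => ?_).trans ?_)
  · rw [norm_prod]
    refine (Finset.prod_le_prod (fun _ _ => norm_nonneg _) (g := fun _ => b * ∑ j, ‖a j‖)
      fun k _ => ?_).trans (by simp)
    rw [Finset.mul_sum]
    refine (norm_sum_le _ _).trans (Finset.sum_le_sum fun j _ => ?_)
    rw [norm_mul]
    exact mul_le_mul_of_nonneg_right (h _ (e k).2 _ _) (norm_nonneg _)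
  · rw [nsmul_eq_mul]
    exact mul_le_mul_of_nonneg_right (by exact_mod_cast orb_card n X) (by positivity)

theorem orb_ne {n : ℕ} {X : Set (Matrix r r ℂ)} (e0 : Fin n ≃ X) (h : ∀ T ∈ X, T.det ≠ 0)
    {ξ : r → ℂ} (hξ : ξ ≠ 0) : ∃ a, ∑ I, orb n X a I * ∏ k, ξ (I k) ≠ 0 := by
  have : Finite X := Finite.of_equiv _ e0
  have := Fintype.ofFinite X
  obtain ⟨a, ha⟩ : ∃ a : r → ℂ, ∀ T : X, ξ ⬝ᵥ T.1 *ᵥ a ≠ 0 := by
    by_contra H
    push Not at H
    obtain ⟨T, hT⟩ := Subspace.exists_eq_top_of_iUnion_eq_univ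
      (p := fun T : X => LinearMap.ker (dotProductBilin ℂ ℂ (ξ ᵥ* T.1)))
      (Set.eq_univ_of_forall fun a => by
        obtain ⟨T, hT⟩ := H a
        exact Set.mem_iUnion.2 ⟨T, by simpa [← dotProduct_mulVec] using hT⟩)
    refine hξ (eq_zero_of_vecMul_eq_zero (h _ T.2) (dotProduct_eq_zero _ fun a => ?_))
    simpa using (hT ▸ Submodule.mem_top : a ∈ LinearMap.ker (dotProductBilin ℂ ℂ (ξ ᵥ* T.1)))
  refine ⟨a, ?_⟩
  have e : ∑ I, orb n X a I * ∏ k, ξ (I k) = ∑ _e : Fin n ≃ X, ∏ T : X, ξ ⬝ᵥ T.1 *ᵥ a := by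
    simp only [orb, Finset.sum_apply, Finset.sum_mul]
    rw [Finset.sum_comm]
    refine Finset.sum_congr rfl fun e _ => ?_
    rw [← e.prod_comp fun T : X => ξ ⬝ᵥ T.1 *ᵥ a]
    simp only [dotProduct]
    rw [Finset.prod_univ_sum, Fintype.piFinset_univ]
    exact Finset.sum_congr rfl fun I _ => by
      rw [← Finset.prod_mul_distrib]
      exact Finset.prod_congr rfl fun k _ => mul_comm _ _
  have : Nonempty (Fin n ≃ X) := ⟨e0⟩
  rw [e, Finset.sum_const, nsmul_eq_mul]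
  exact mul_ne_zero (by simp) (Finset.prod_ne_zero_iff.2 fun T _ => ha T)

end orb

variable {ω γ : Type} [Fintype ω] [Fintype γ] {S : Type} [TopologicalSpace S] [MeasurableSpace S]
  [BorelSpace S] {D : RD (ω ⊕ γ) S} {g : MvPolynomial (ω ⊕ γ) ℂ} {r : Type} [Fintype r]
  [DecidableEq r]

theorem Par.leaf (P : Par D g r) (y0 : S) (h0 : MvPolynomial.eval (D.π y0) g ≠ 0) :
    ∃ (n s : ℕ) (u : Fin s → S → (Fin n → r) → ℂ), 0 < n ∧
      (∀ j y y1 T, MvPolynomial.eval (D.π y) g ≠ 0 → MvPolynomial.eval (D.π y1) g ≠ 0 →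
        T ∈ P.Iso y y1 → u j y1 = tp (Fin n) T *ᵥ u j y) ∧
      (∃ (c : ℝ) (N : ℕ), ∀ j y I, MvPolynomial.eval (D.π y) g ≠ 0 →
        ‖u j y I‖ ≤ c * mg g (D.π y) ^ N) ∧
      ∀ ξ : r → ℂ, (∀ j, MvPolynomial.eval ξ (dg (u j y0)) = 0) → ξ = 0 := by
  have : Finite (P.Iso y0 y0) := P.fin y0 h0
  have : Nonempty (P.Iso y0 y0) := ⟨⟨1, P.one y0⟩⟩
  obtain ⟨n, hn, ⟨e0⟩⟩ : ∃ n, 0 < n ∧ Nonempty (Fin n ≃ P.Iso y0 y0) :=
    ⟨_, Nat.card_pos, ⟨(Finite.equivFin _).symm⟩⟩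
  obtain ⟨t, ht, hs⟩ := (Submodule.fg_span_iff_fg_span_finset_subset
    (R := ℂ) (Set.range (orb n (P.Iso y0 y0)))).1 (IsNoetherian.noetherian _)
  choose a ha using fun j : Fin t.card => ht (t.equivFin.symm j).2
  refine ⟨n, t.card, fun j y => orb n (P.Iso y0 y) (a j), hn, fun j y y1 T hy hy1 hT => ?_, ?_,
    fun ξ h => ?_⟩
  · obtain ⟨hd, hi⟩ := P.inv hy hy1 hT
    exact orb_mul n T ⟨fun X => ⟨_, P.mul X.2 hT⟩, fun X => ⟨_, P.mul X.2 hi⟩,
      fun X => Subtype.ext (nonsing_inv_mul_cancel_left _ _ hd.isUnit),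
      fun X => Subtype.ext (mul_nonsing_inv_cancel_left _ _ hd.isUnit)⟩ (fun _ => rfl) _
  · obtain ⟨c, N, hc⟩ := P.bd
    have m0 := one_le_mg g (D.π y0)
    refine ⟨n.factorial * (|c| * mg g (D.π y0) ^ N * ∑ j, ∑ i, ‖a j i‖) ^ n, N * n,
      fun j y I hy => ?_⟩
    have m1 := one_le_mg g (D.π y)
    refine (orb_le n (b := |c| * (mg g (D.π y0) * mg g (D.π y)) ^ N) (by positivity)
      (fun T hT i k => (hc y0 y h0 hy T hT i k).trans
        (mul_le_mul_of_nonneg_right (le_abs_self c) (by positivity))) _ I).trans ?_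
    rw [mul_assoc (n.factorial : ℝ), pow_mul, ← mul_pow]
    have : ∑ i, ‖a j i‖ ≤ ∑ j, ∑ i, ‖a j i‖ :=
      Finset.single_le_sum (f := fun j => ∑ i, ‖a j i‖) (fun _ _ => by positivity)
        (Finset.mem_univ j)
    refine mul_le_mul_of_nonneg_left (pow_le_pow_left₀ (by positivity) ?_ _) (by positivity)
    rw [mul_pow, ← mul_assoc, mul_right_comm]
    gcongr
  · by_contra hξ
    obtain ⟨b, hb⟩ := orb_ne e0 (fun T hT => (P.inv h0 h0 hT).1) hξ
    have h1 : Submodule.span ℂ (t : Set _) ≤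
        LinearMap.ker (dotProductBilin ℂ ℂ fun I : Fin n → r => ∏ k, ξ (I k)) := by
      refine Submodule.span_le.2 fun v hv => ?_
      have := h (t.equivFin ⟨v, hv⟩)
      simp only [eval_dg, ha, Equiv.symm_apply_apply] at this
      simpa [dotProduct, mul_comm] using this
    have h2 := h1 (hs ▸ Submodule.subset_span (Set.mem_range_self b))
    exact hb (by simpa [dotProduct, mul_comm] using h2)

end

end Pool.Agent.Lib.MP_5c318e_ag.Fl
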