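import Pool.Agent.Lib.MP_5c318e_ag.P.Vec
import Pool.Agent.Lib.MP_5c318e_ag.P.Leaf

/-! Enough rational horizontal tensors. -/

set_option autoImplicit false
set_option linter.unusedSectionVars false

namespace Pool.Agent.Lib.MP_5c318e_ag.Fl

open Filter Topology Matrix Set MeasureTheory

variable {ω γ : Type} [Fintype ω] [DecidableEq ω] [Fintype γ] [DecidableEq γ]
  {r : Type} [Fintype r] [DecidableEq r]

/-- an element that is regular at every point lies in the ring -/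
theorem mem_of_reg {K : Type} [Field K] [Algebra ℂ K] {O : Subalgebra ℂ K} [Algebra.FiniteType ℂ O]
    {φ : K} (h : ∀ p : Pt O, p.Reg φ) : φ ∈ O := by
  let I : Ideal O :=
    { carrier := {b | φ * b ∈ O}
      add_mem' := fun {a b} ha hb => by
        show φ * ((a : K) + b) ∈ O
        rw [mul_add]; exact O.add_mem ha hb
      zero_mem' := by show φ * (0 : K) ∈ O; rw [mul_zero]; exact O.zero_mem
      smul_mem' := fun c b hb => by
        show φ * ((c : K) * b) ∈ O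
        rw [mul_left_comm]; exact O.mul_mem c.2 hb }
  by_cases e : I = ⊤
  · have : φ * ((1 : O) : K) ∈ O := (e ▸ Submodule.mem_top : (1 : O) ∈ I)
    simpa using this
  · obtain ⟨p, hp⟩ := Pt.exists_zero e
    obtain ⟨a, b, hb, k⟩ := h p
    exact absurd (hp b (show φ * b ∈ O from k ▸ a.2)) hb

/-- at one point -/
theorem Par.flat_pt {K : Type} [Field K] [Algebra ℂ K] (B : Cht (ω ⊕ γ) K)
    (h : Fini (Algebra.ofId ℂ B.O) B.z) {g : MvPolynomial (ω ⊕ γ) ℂ} (hg : g ≠ 0)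
    (P : Par B.D g r) : ∃ (n s : ℕ) (U : Fin s → (Fin n → r) → K), 0 < n ∧
      (∀ j I p, MvPolynomial.eval (B.D.π p) g ≠ 0 → p.Reg (U j I)) ∧
      (∀ j, P.Hor (Fin n) fun p I => p.ev (U j I)) ∧
      ∃ p, MvPolynomial.eval (B.D.π p) g ≠ 0 ∧ ∀ ξ : r → ℂ,
        (∀ j, MvPolynomial.eval ξ (dg fun I => p.ev (U j I)) = 0) → ξ = 0 := by
  obtain ⟨C, -⟩ := B.cov h
  obtain ⟨x0, hx⟩ := FibRed.ae_slice (mul_ne_zero hg C.ne)
  obtain ⟨w, h1, h2⟩ := (hx.and (ae_all_iff.2 fun n : ℕ => (P.ten (Fin n)).vec h hg)).exists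
  rw [map_mul] at h1
  obtain ⟨p0, -⟩ := Pt.exists_zero (O := B.O) bot_ne_top
  obtain ⟨y0, hy⟩ : (B.D.π ⁻¹' {Sum.elim w x0}).Nonempty := by
    rw [← encard_ne_zero, C.card (right_ne_zero_of_mul h1), ← C.card (C.Δ_ne p0), encard_ne_zero]
    exact ⟨p0, rfl⟩
  have hy' : B.D.π y0 = Sum.elim w x0 := hy
  have h0 : MvPolynomial.eval (B.D.π y0) g ≠ 0 := by rw [hy']; exact left_ne_zero_of_mul h1
  obtain ⟨n, s, u, n0, u1, ⟨c, N, u2⟩, u3⟩ := P.leaf y0 h0
  choose U hU using fun j => h2 n (u j) c N fun p _ hp => ⟨by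
    filter_upwards [P.tr_iso hp, Par.ne_ev hp] with q k1 k2 e
    rw [P.ten_tr _ hp]
    exact u1 j p q _ hp k2 (k1 e), fun I => u2 j p I hp⟩
  refine ⟨n, s, U, n0, fun j I p hp => (hU j p hp).1 I, fun j p hp => ?_, y0, h0, fun ξ hξ => ?_⟩
  · simpa only [P.ten_tr _ hp] using (hU j p hp).2.1
  · refine u3 ξ fun j => ?_
    rw [← hξ j]
    congr 2
    exact (funext ((hU j y0 h0).2.2 (by rw [hy']; rfl))).symm

/-- the same with coefficients in the ring, when `g` has no zero on the chart -/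
theorem Par.flat_ring {K : Type} [Field K] [Algebra ℂ K] (B : Cht (ω ⊕ γ) K)
    (h : Fini (Algebra.ofId ℂ B.O) B.z) {g : MvPolynomial (ω ⊕ γ) ℂ}
    (hg : ∀ p, MvPolynomial.eval (B.D.π p) g ≠ 0) (P : Par B.D g r) :
    ∃ (n s : ℕ) (U : Fin s → (Fin n → r) → B.O), 0 < n ∧
      (∀ j, P.Hor (Fin n) fun p I => p (U j I)) ∧
      ∃ p : Pt B.O, ∀ ξ : r → ℂ, (∀ j, ∑ I, p (U j I) * ∏ k, ξ (I k) = 0) → ξ = 0 := by
  obtain ⟨p0, -⟩ := Pt.exists_zero (O := B.O) bot_ne_top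
  obtain ⟨n, s, U, n0, h1, h2, p, -, h3⟩ := P.flat_pt B h fun e => hg p0 (by rw [e, map_zero])
  have m : ∀ j I, U j I ∈ B.O := fun j I => mem_of_reg fun p => h1 j I p (hg p)
  refine ⟨n, s, fun j I => ⟨U j I, m j I⟩, n0, fun j => ?_, p, fun ξ hξ => h3 ξ fun j => ?_⟩
  · simpa only [Pt.ev_of_mem _ (m j _)] using h2 j
  · simpa only [eval_dg, Pt.ev_of_mem _ (m j _)] using hξ j

end Pool.Agent.Lib.MP_5c318e_ag.Fl
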