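import Pool.Agent.Lib.MP_5c318e_ag.P.Ten
import Pool.Agent.Lib.MP_9ff3e7_ag.F.Osg

/-! The parallel structure of a family of homogeneous functions. -/

set_option autoImplicit false
set_option linter.unusedSectionVars false

namespace Pool.Agent.Lib.MP_5c318e_ag.Fl

open Filter Topology Matrix Set

variable {ω γ r : Type} [Fintype ω] [DecidableEq ω] [Fintype γ] [DecidableEq γ] [Fintype r]
  [DecidableEq r]
  {S : Type} [TopologicalSpace S] [MeasurableSpace S] [BorelSpace S] [T2Space S] [SigmaCompactSpace S]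
  {D : RD (ω ⊕ γ) S} {g : MvPolynomial (ω ⊕ γ) ℂ}

theorem le_of_rpow_le {p : ℝ} (hp : 0 < p) {k : ℕ} (hk : p⁻¹ ≤ k) {x B : ℝ} (hx : 0 ≤ x)
    (hB : 1 ≤ B) (h : x ^ p ≤ B) : x ≤ B ^ k := by
  calc x = (x ^ p) ^ p⁻¹ := (Real.rpow_rpow_inv hx hp.ne').symm
    _ ≤ B ^ p⁻¹ := Real.rpow_le_rpow (by positivity) h (by positivity)
    _ ≤ B ^ (k : ℝ) := Real.rpow_le_rpow_of_exponent_le hB hk
    _ = _ := Real.rpow_natCast _ _

theorem Par.exists_of (N : S → (r → ℂ) → ℝ) (G : S → ℂ) (M : ℕ) {p c : ℝ} (hp : 0 < p)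
    (hc : 0 ≤ c) (L : ℕ)
    (hG : ∀ y, MvPolynomial.eval (D.π y) g ≠ 0 → G y ≠ 0)
    (hlo : ∀ y, MvPolynomial.eval (D.π y) g ≠ 0 → ∀ a, ‖a‖ ^ p ≤ c * mg g (D.π y) ^ L * N y a)
    (hup : ∀ y, MvPolynomial.eval (D.π y) g ≠ 0 → ∀ a, N y a ≤ c * mg g (D.π y) ^ L * ‖a‖ ^ p)
    (hfin : ∀ y, MvPolynomial.eval (D.π y) g ≠ 0 →
      {T : Matrix r r ℂ | (∀ a, N y (T *ᵥ a) = N y a) ∧ T.det ^ M = 1}.Finite)
    (hA : ∀ y, MvPolynomial.eval (D.π y) g ≠ 0 → ∃ A : (ω ⊕ γ → ℂ) → Matrix r r ℂ,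
      (∀ i j, ∀ᶠ z in 𝓝 (D.π y), DifferentiableAt ℂ (fun z => A z i j) z) ∧ (A (D.π y)).det ≠ 0 ∧
      ∀ᶠ z in 𝓝 (D.π y), ∀ᶠ z' in 𝓝 z, wc z' = wc z →
        (∀ a, N (D.sec y z') (A z' *ᵥ a) = N (D.sec y z) (A z *ᵥ a)) ∧
        (A z').det ^ M * G (D.sec y z) = (A z).det ^ M * G (D.sec y z')) :
    ∃ P : Par D g r, ∀ y y' T, T ∈ P.Iso y y' ↔
      (∀ a, N y' (T *ᵥ a) = N y a) ∧ T.det ^ M * G y = G y' := by
  choose! A hA1 hA2 hA3 using hA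
  have an : ∀ y, MvPolynomial.eval (D.π y) g ≠ 0 → AnM (A y) (D.π y) := fun y hy i j => by
    obtain ⟨U, h1, h2, h3⟩ := eventually_nhds_iff.1 (hA1 y hy i j)
    exact MP_9ff3e7_ag.F.osgood h2 (fun z hz => (h1 z hz).differentiableWithinAt) _ h3
  have m0 : ∀ y, 0 ≤ mg g (D.π y) := fun y => zero_le_one.trans (one_le_mg _ _)
  have key : ∀ y y', MvPolynomial.eval (D.π y) g ≠ 0 → MvPolynomial.eval (D.π y') g ≠ 0 →
      ∀ T : Matrix r r ℂ, (∀ a, N y' (T *ᵥ a) = N y a) → ∀ a,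
      ‖T *ᵥ a‖ ^ p ≤ c * mg g (D.π y') ^ L * (c * mg g (D.π y) ^ L * ‖a‖ ^ p) := by
    intro y y' hy hy' T hT a
    refine (hlo y' hy' _).trans (mul_le_mul_of_nonneg_left ?_ (by have := m0 y'; positivity))
    rw [hT]; exact hup y hy a
  have dt : ∀ y y', MvPolynomial.eval (D.π y) g ≠ 0 → MvPolynomial.eval (D.π y') g ≠ 0 →
      ∀ T : Matrix r r ℂ, (∀ a, N y' (T *ᵥ a) = N y a) → T.det ≠ 0 := by
    intro y y' hy hy' T hT e
    obtain ⟨a, ha, k⟩ := exists_mulVec_eq_zero_iff.2 e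
    have k1 := hlo y hy a
    have k2 := hup y' hy' 0
    rw [norm_zero, Real.zero_rpow hp.ne', mul_zero] at k2
    rw [← hT, k] at k1
    have k3 : 0 < ‖a‖ ^ p := Real.rpow_pos_of_pos (norm_pos_iff.2 ha) p
    have k4 : 0 ≤ c * mg g (D.π y) ^ L := by have := m0 y; positivity
    nlinarith
  refine ⟨⟨fun y y' => {T | (∀ a, N y' (T *ᵥ a) = N y a) ∧ T.det ^ M * G y = G y'}, A,
    fun y => ⟨fun a => by rw [one_mulVec], by simp⟩, fun {y y' y'' T T'} h h' => ⟨fun a => ?_, ?_⟩,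
    fun {y y' T} hy hy' h => ?_, fun y hy => (hfin y hy).subset fun T h => ⟨h.1, ?_⟩, ?_,
    an, hA2, fun y hy => ?_⟩, fun _ _ _ => Iff.rfl⟩
  · rw [← mulVec_mulVec, h'.1, h.1]
  · rw [det_mul, mul_pow, mul_assoc, h.2, h'.2]
  · have d := dt y y' hy hy' T h.1
    refine ⟨d, fun a => ?_, ?_⟩
    · rw [← h.1, mulVec_mulVec, mul_nonsing_inv _ d.isUnit, one_mulVec]
    · rw [← h.2, det_nonsing_inv, Ring.inverse_eq_inv', ← mul_assoc, ← mul_pow, inv_mul_cancel₀ d,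
        one_pow, one_mul]
  · exact mul_right_cancel₀ (hG y hy) (by rw [h.2, one_mul])
  · obtain ⟨k, hk⟩ := exists_nat_ge p⁻¹
    refine ⟨(c * c + 1) ^ k, L * k, fun y y' hy hy' T h i j => ?_⟩
    have k1 := key y y' hy hy' T h.1 (Pi.single j 1)
    rw [Pi.norm_single, norm_one, Real.one_rpow, mul_one] at k1
    have k2 : 1 ≤ (mg g (D.π y) * mg g (D.π y')) ^ L :=
      one_le_pow₀ (one_le_mul_of_one_le_of_one_le (one_le_mg _ _) (one_le_mg _ _))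
    have k3 := le_of_rpow_le hp hk (norm_nonneg _)
      (B := (c * c + 1) * (mg g (D.π y) * mg g (D.π y')) ^ L)
      (one_le_mul_of_one_le_of_one_le (by nlinarith) k2) (k1.trans (by
        rw [add_mul, one_mul, mul_pow] at *
        nlinarith))
    rw [pow_mul, ← mul_pow]
    refine le_trans ?_ k3
    simpa using norm_le_pi_norm (T *ᵥ Pi.single j 1) i
  · filter_upwards [hA3 y hy, (an y hy).det_ev (hA2 y hy)] with z h1 h2
    filter_upwards [h1] with z' h3 e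
    refine ⟨fun a => ?_, ?_⟩
    · rw [← mulVec_mulVec, (h3 e).1, mulVec_mulVec, mul_nonsing_inv _ h2.isUnit, one_mulVec]
    · rw [det_mul, det_nonsing_inv, Ring.inverse_eq_inv', mul_pow, mul_right_comm, (h3 e).2,
        mul_right_comm, ← mul_pow, mul_inv_cancel₀ h2, one_pow, one_mul]

end Pool.Agent.Lib.MP_5c318e_ag.Fl
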