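import Pool.Agent.Lib.MP_5c318e_ag.P.Ten
import Pool.Agent.Lib.MP_5c318e_ag.S.RCov
import Pool.Agent.Lib.MP_5c318e_ag.H.Lift

/-! Transport of horizontal tensors along a slice to the fibre over a fixed point. -/

set_option autoImplicit false

namespace Pool.Agent.Lib.MP_5c318e_ag.Fl

open Filter Topology Matrix MeasureTheory

section

variable {ω γ r κ : Type} [Fintype ω] [DecidableEq ω] [Fintype γ] [DecidableEq γ] [Fintype r]
  [DecidableEq r] [Fintype κ] [DecidableEq κ]
  {S : Type} [TopologicalSpace S] [MeasurableSpace S] [BorelSpace S] [T2Space S] [SigmaCompactSpace S]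
  {D : RD (ω ⊕ γ) S} {g : MvPolynomial (ω ⊕ γ) ℂ}

/-- a complex line not contained in a hypersurface stays connected off the hypersurface -/
theorem reach_line {ι : Type} (G : MvPolynomial ι ℂ) (a b : ι → ℂ)
    (h : MvPolynomial.eval a G ≠ 0) :
    IsPreconnected {t : ℂ | MvPolynomial.eval (a + t • b) G ≠ 0} := by
  let q : Polynomial ℂ :=
    MvPolynomial.aeval (fun i => Polynomial.C (a i) + Polynomial.X * Polynomial.C (b i)) G
  have e : ∀ t : ℂ, q.eval t = MvPolynomial.eval (a + t • b) G := fun t => by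
    have := MvPolynomial.comp_aeval_apply
      (fun i => Polynomial.C (a i) + Polynomial.X * Polynomial.C (b i)) (Polynomial.aeval t) G
    rw [← Polynomial.coe_aeval_eq_eval, this, MvPolynomial.aeval_eq_eval]
    refine congrArg (fun z => MvPolynomial.eval z G) (funext fun i => ?_)
    simpa using mul_comm (b i) t
  have q0 : q ≠ 0 := fun e0 => h (by simpa [e0] using (e 0).symm)
  have := ((Polynomial.finite_setOfPred_isRoot q0).countable.isConnected_compl_of_one_lt_rank
    (by simp)).isPreconnected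
  convert this using 1
  ext t
  simp [← e]

theorem Par.reach (P : Par D g r) (C : D.Cov) {J : Type} [Finite J] {u : J → S → (κ → r) → ℂ}
    (hu : ∀ j, P.Hor κ (u j)) {y : S} (hy : MvPolynomial.eval (D.π y) g ≠ 0) {x0 : γ → ℂ}
    (h0 : MvPolynomial.eval (Sum.elim (wc (D.π y)) x0) (g * C.Δ) ≠ 0) :
    ∃ y1, D.π y1 = Sum.elim (wc (D.π y)) x0 ∧ ∃ T ∈ P.Iso y1 y, ∀ j, u j y = tp κ T *ᵥ u j y1 := by
  set z0 : ω ⊕ γ → ℂ := Sum.elim (wc (D.π y)) x0 with hz0
  let R : S → Prop := fun q =>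
    ∃ y1, D.π y1 = z0 ∧ ∃ T ∈ P.Iso y1 q, ∀ j, u j q = tp κ T *ᵥ u j y1
  have loc : ∀ p, MvPolynomial.eval (D.π p) g ≠ 0 →
      ∀ᶠ q in 𝓝 p, wc (D.π q) = wc (D.π p) → (R q ↔ R p) := fun p hp => by
    have h : ∀ᶠ q in 𝓝 p, wc (D.π q) = wc (D.π p) → P.tr p q ∈ P.Iso p q :=
      (P.par' hp).self_of_nhds
    filter_upwards [h, eventually_all.2 fun j => hu j p hp,
      ((MvPolynomial.continuous_eval g).comp D.cont_π).continuousAt.eventually_ne hp]
      with q h1 h2 h3 e
    obtain ⟨hd, hi⟩ := P.inv hp h3 (h1 e)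
    constructor
    · rintro ⟨y1, e1, T, hT, h⟩
      refine ⟨y1, e1, _, P.mul hT hi, fun j => ?_⟩
      rw [tp_mul, ← mulVec_mulVec, ← h, h2 j e, mulVec_mulVec, ← tp_mul,
        nonsing_inv_mul _ (Ne.isUnit hd), tp_one, one_mulVec]
    · rintro ⟨y1, e1, T, hT, h⟩
      exact ⟨y1, e1, _, P.mul hT (h1 e), fun j => by
        rw [tp_mul, ← mulVec_mulVec, ← h, h2 j e]⟩
  let l : ℂ → ω ⊕ γ → ℂ := fun t => z0 + t • (D.π y - z0)
  have lc : Continuous l := by fun_prop
  have lw : ∀ t, wc (l t) = wc (D.π y) := fun t => by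
    funext i
    simp [l, wc, hz0]
  have key := Abs.const_of_eventually (reach_line (g * C.Δ) z0 (D.π y - z0) h0)
    (u := fun t => ∀ q, D.π q = l t → R q) (fun t ht => by
      have ht' : MvPolynomial.eval (l t) g * MvPolynomial.eval (l t) C.Δ ≠ 0 := by
        rw [← map_mul]; exact ht
      have h1 : ∀ᶠ b in 𝓝 (l t), ∀ q ∈ D.π ⁻¹' {l t}, D.π (D.sec q b) = b ∧
          (wc (D.π (D.sec q b)) = wc (D.π q) → (R (D.sec q b) ↔ R q)) :=
        (eventually_all_finite (C.fin _)).2 fun q hq => by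
          have e : D.π q = l t := hq
          rw [← e]
          exact (D.π_sec_ev q).and ((D.tendsto_sec q).eventually
            (loc q (e ▸ left_ne_zero_of_mul ht')))
      refine Eventually.filter_mono nhdsWithin_le_nhds ?_
      filter_upwards [(lc.tendsto t).eventually h1,
        (lc.tendsto t).eventually (C.sheets (right_ne_zero_of_mul ht'))] with s h2 h3
      have h4 : ∀ q, D.π q = l t → (R (D.sec q (l s)) ↔ R q) := fun q hq =>
        (h2 q hq).2 (by rw [(h2 q hq).1, hq, lw, lw])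
      refine propext ⟨fun h q hq => (h4 q hq).1 (h _ (h2 q hq).1), fun h p hp => ?_⟩
      obtain ⟨q, hq, rfl⟩ := h3 p hp
      exact (h4 q hq).2 (h q hq)) (a := 0) (b := 1) (by simpa using h0) (by
      simp only [Set.mem_ofPred_eq, one_smul, add_sub_cancel, map_mul]
      exact mul_ne_zero hy (C.Δ_ne y))
  have k0 : ∀ q, D.π q = l 0 → R q := fun q hq =>
    ⟨q, by simpa [l] using hq, 1, P.one q, fun j => by rw [tp_one, one_mulVec]⟩
  exact (key ▸ k0 : ∀ q, D.π q = l 1 → R q) y (by simp [l])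

end

end Pool.Agent.Lib.MP_5c318e_ag.Fl
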