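import Pool.Agent.Lib.MP_5c318e_ag.P.FDefs

/-! Integrals of tensors on products of fibres, slot by slot. -/

set_option autoImplicit false

namespace Pool.Agent.Lib.MP_5c318e_ag.Fl

open Filter Topology Matrix MeasureTheory

variable {r κ : Type} [Fintype r] [DecidableEq r] [Fintype κ] [DecidableEq κ]

/-- the value of a tensor at a tuple of points -/
noncomputable def tv {Ω : Type} (s : r → Ω → ℂ) (U : (κ → r) → ℂ) (x : κ → Ω) : ℂ :=
  ∑ I, U I * ∏ k, s (I k) (x k)

omit [DecidableEq r] in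
lemma tv_meas {Ω : Type} [MeasurableSpace Ω] {s : r → Ω → ℂ} (hs : ∀ i, Measurable (s i))
    (U : (κ → r) → ℂ) : Measurable (tv s U) :=
  Finset.measurable_sum _ fun I _ => (Finset.measurable_prod _ fun k _ =>
    (hs (I k)).comp (measurable_pi_apply k)).const_mul _

omit [DecidableEq r] in
lemma tv_cons {Ω : Type} {n : ℕ} (s : r → Ω → ℂ) (U : (Fin (n + 1) → r) → ℂ) (x0 : Ω)
    (x : Fin n → Ω) : tv s U (Fin.cons x0 x) = ∑ i, tv s (fun I => U (Fin.cons i I)) x * s i x0 := by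
  unfold tv
  rw [← (Fin.consEquiv fun _ : Fin (n + 1) => r).sum_comp, Fintype.sum_prod_type]
  refine Finset.sum_congr rfl fun i _ => ?_
  rw [Finset.sum_mul]
  refine Finset.sum_congr rfl fun I _ => ?_
  have e : (Fin.consEquiv fun _ : Fin (n + 1) => r) (i, I) = Fin.cons i I := rfl
  simp only [e, Fin.prod_univ_succ, Fin.cons_zero, Fin.cons_succ]
  ring

omit [DecidableEq r] in
lemma tv_comb {Ω : Type} (s : r → Ω → ℂ) (V : r → (κ → r) → ℂ) (b : r → ℂ) (x : κ → Ω) :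
    ∑ i, tv s (V i) x * b i = tv s (fun I => ∑ i, V i I * b i) x := by
  simp only [tv, Finset.sum_mul]
  rw [Finset.sum_comm]
  exact Finset.sum_congr rfl fun I _ => Finset.sum_congr rfl fun i _ => by ring

lemma lint_cons {Ω : Type} [MeasurableSpace Ω] (ν : Measure Ω) [SigmaFinite ν] {n : ℕ}
    (f : (Fin (n + 1) → Ω) → ENNReal) :
    ∫⁻ x, f x ∂(Measure.pi fun _ => ν) =
      ∫⁻ y : Ω × (Fin n → Ω), f (Fin.cons y.1 y.2) ∂(ν.prod (Measure.pi fun _ => ν)) := by
  rw [← ((measurePreserving_piFinSuccAbove (fun _ : Fin (n + 1) => ν) 0).symm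
    _).lintegral_comp_emb (MeasurableEquiv.measurableEmbedding _)]
  refine lintegral_congr fun y => ?_
  congr 1
  exact Fin.insertNth_zero' y.1 y.2

omit [DecidableEq r] in
lemma lint_reindex {Ω : Type} [MeasurableSpace Ω] (ν : Measure Ω) [SigmaFinite ν] {κ' : Type}
    [Fintype κ'] [DecidableEq κ'] (e : κ ≃ κ') (s : r → Ω → ℂ) (F : ℂ → ENNReal)
    (U : (κ → r) → ℂ) :
    ∫⁻ x, F (tv s U x) ∂(Measure.pi fun _ => ν) =
      ∫⁻ x, F (tv s (fun J : κ' → r => U (J ∘ e)) x) ∂(Measure.pi fun _ => ν) := by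
  rw [← (measurePreserving_arrowCongr' (fun _ : κ => ν) (fun _ : κ' => ν) e
    (MeasurableEquiv.refl Ω) fun _ => MeasurePreserving.id ν).lintegral_comp_emb
      (MeasurableEquiv.measurableEmbedding _)]
  refine lintegral_congr fun x => congrArg F ?_
  unfold tv
  rw [← (e.arrowCongr (Equiv.refl r)).sum_comp]
  refine Finset.sum_congr rfl fun I _ => ?_
  congr 1
  · congr 1; funext k; simp
  · rw [← e.prod_comp]
    refine Finset.prod_congr rfl fun k _ => ?_
    change _ = s (I (e.symm (e k))) (x (e.symm (e k)))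
    rw [e.symm_apply_apply]

omit [DecidableEq r] in
lemma slot_fin {Ω Ω' : Type} [MeasurableSpace Ω] [MeasurableSpace Ω'] (ν : Measure Ω)
    (ν' : Measure Ω') [SigmaFinite ν] [SigmaFinite ν'] {s : r → Ω → ℂ} {s' : r → Ω' → ℂ}
    (hs : ∀ i, Measurable (s i)) (hs' : ∀ i, Measurable (s' i)) {F : ℂ → ENNReal}
    (hF : Measurable F)
    (h : ∀ a : r → ℂ, ∫⁻ x, F (∑ i, a i * s' i x) ∂ν' = ∫⁻ x, F (∑ i, a i * s i x) ∂ν) (n : ℕ) :
    ∀ U : (Fin n → r) → ℂ, ∫⁻ x, F (tv s' U x) ∂(Measure.pi fun _ => ν') =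
      ∫⁻ x, F (tv s U x) ∂(Measure.pi fun _ => ν) := by
  induction n with
  | zero => intro U; simp [tv]
  | succ n ih =>
    intro U
    set V : r → (Fin n → r) → ℂ := fun i I => U (Fin.cons i I) with hV
    have m1 : Measurable fun y : Ω' × (Fin n → Ω') => F (∑ i, tv s' (V i) y.2 * s' i y.1) :=
      hF.comp (Finset.measurable_sum _ fun i _ =>
        ((tv_meas hs' _).comp measurable_snd).mul ((hs' i).comp measurable_fst))
    have m2 : Measurable fun y : Ω × (Fin n → Ω) => F (∑ i, tv s (V i) y.2 * s i y.1) :=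
      hF.comp (Finset.measurable_sum _ fun i _ =>
        ((tv_meas hs _).comp measurable_snd).mul ((hs i).comp measurable_fst))
    have m3 : Measurable fun y : Ω' × (Fin n → Ω) => F (∑ i, tv s (V i) y.2 * s' i y.1) :=
      hF.comp (Finset.measurable_sum _ fun i _ =>
        ((tv_meas hs _).comp measurable_snd).mul ((hs' i).comp measurable_fst))
    simp only [lint_cons, tv_cons]
    rw [lintegral_prod _ m1.aemeasurable, lintegral_prod_symm _ m2.aemeasurable]
    calc _ = ∫⁻ x0, ∫⁻ x, F (∑ i, tv s (V i) x * s' i x0) ∂(Measure.pi fun _ => ν) ∂ν' :=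
          lintegral_congr fun x0 => by simp only [tv_comb]; exact ih _
      _ = ∫⁻ x, ∫⁻ x0, F (∑ i, tv s (V i) x * s' i x0) ∂ν' ∂(Measure.pi fun _ => ν) :=
          lintegral_lintegral_swap m3.aemeasurable
      _ = _ := lintegral_congr fun x => h _

omit [DecidableEq r] in
lemma tv_tp {Ω : Type} (s : r → Ω → ℂ) (T : Matrix r r ℂ) (U : (κ → r) → ℂ) (x : κ → Ω) :
    tv s (tp κ T *ᵥ U) x = tv (fun j y => ∑ i, T i j * s i y) U x := by
  simp only [tv, tp, mulVec, dotProduct, of_apply, Finset.sum_mul]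
  rw [Finset.sum_comm]
  refine Finset.sum_congr rfl fun J _ => ?_
  rw [Finset.prod_univ_sum, Fintype.piFinset_univ, Finset.mul_sum]
  refine Finset.sum_congr rfl fun I _ => ?_
  rw [Finset.prod_mul_distrib]
  ring

/-- an isometry of the one slot integrals is an isometry of the integrals on products -/
theorem slot {Ω Ω' : Type} [MeasurableSpace Ω] [MeasurableSpace Ω'] (ν : Measure Ω)
    (ν' : Measure Ω') [SigmaFinite ν] [SigmaFinite ν'] {s : r → Ω → ℂ} {s' : r → Ω' → ℂ}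
    (hs : ∀ i, Measurable (s i)) (hs' : ∀ i, Measurable (s' i)) {F : ℂ → ENNReal}
    (hF : Measurable F) (T : Matrix r r ℂ)
    (h : ∀ a, ∫⁻ x, F (∑ i, (T *ᵥ a) i * s' i x) ∂ν' = ∫⁻ x, F (∑ i, a i * s i x) ∂ν)
    (U : (κ → r) → ℂ) :
    ∫⁻ x, F (∑ I, (tp κ T *ᵥ U) I * ∏ k, s' (I k) (x k)) ∂(Measure.pi fun _ : κ => ν') =
      ∫⁻ x, F (∑ I, U I * ∏ k, s (I k) (x k)) ∂(Measure.pi fun _ : κ => ν) := by
  change ∫⁻ x, F (tv s' (tp κ T *ᵥ U) x) ∂_ = ∫⁻ x, F (tv s U x) ∂_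
  simp only [tv_tp]
  rw [lint_reindex ν' (Fintype.equivFin κ), lint_reindex ν (Fintype.equivFin κ)]
  refine slot_fin ν ν' hs (fun j => Finset.measurable_sum _ fun i _ => (hs' i).const_mul _) hF
    (fun a => Eq.trans (lintegral_congr fun x => congrArg F ?_) (h a)) _ _
  simp only [mulVec, dotProduct, Finset.sum_mul, Finset.mul_sum]
  rw [Finset.sum_comm]
  exact Finset.sum_congr rfl fun i _ => Finset.sum_congr rfl fun j _ => by ring

omit [DecidableEq r] in
lemma slot_low_fin {Ω : Type} [MeasurableSpace Ω] (ν : Measure Ω) [SigmaFinite ν]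
    {s : r → Ω → ℂ} (hs : ∀ i, Measurable (s i)) {F : ℂ → ENNReal} (hF : Measurable F)
    {c : ENNReal} (h : ∀ (a : r → ℂ) (i : r), c * F (a i) ≤ ∫⁻ x, F (∑ i, a i * s i x) ∂ν)
    (n : ℕ) : ∀ (U : (Fin n → r) → ℂ) (I : Fin n → r),
      c ^ n * F (U I) ≤ ∫⁻ x, F (tv s U x) ∂(Measure.pi fun _ => ν) := by
  induction n with
  | zero => intro U I; simp [tv, Subsingleton.elim I default]
  | succ n ih =>
    intro U I
    set V : r → (Fin n → r) → ℂ := fun i I => U (Fin.cons i I) with hV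
    have m2 : Measurable fun y : Ω × (Fin n → Ω) => F (∑ i, tv s (V i) y.2 * s i y.1) :=
      hF.comp (Finset.measurable_sum _ fun i _ =>
        ((tv_meas hs _).comp measurable_snd).mul ((hs i).comp measurable_fst))
    simp only [lint_cons, tv_cons]
    rw [lintegral_prod_symm _ m2.aemeasurable]
    calc _ = c * (c ^ n * F (V (I 0) (Fin.tail I))) := by
          simp only [hV, Fin.cons_self_tail, pow_succ', mul_assoc]
      _ ≤ c * ∫⁻ x, F (tv s (V (I 0)) x) ∂(Measure.pi fun _ => ν) := by gcongr; exact ih _ _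
      _ = ∫⁻ x, c * F (tv s (V (I 0)) x) ∂(Measure.pi fun _ => ν) :=
          (lintegral_const_mul _ (hF.comp (tv_meas hs _))).symm
      _ ≤ _ := lintegral_mono fun x => h (fun i => tv s (V i) x) (I 0)

/-- coefficients are bounded by the integral on the product -/
theorem slot_low {Ω : Type} [MeasurableSpace Ω] (ν : Measure Ω) [SigmaFinite ν] {s : r → Ω → ℂ}
    (hs : ∀ i, Measurable (s i)) {p : ℝ} {c : ENNReal}
    (h : ∀ (a : r → ℂ) (i : r), c * ‖a i‖ₑ ^ p ≤ ∫⁻ x, ‖∑ i, a i * s i x‖ₑ ^ p ∂ν)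
    (U : (κ → r) → ℂ) (I : κ → r) :
    c ^ Fintype.card κ * ‖U I‖ₑ ^ p ≤
      ∫⁻ x, ‖∑ I, U I * ∏ k, s (I k) (x k)‖ₑ ^ p ∂(Measure.pi fun _ : κ => ν) := by
  have := slot_low_fin ν hs (F := fun z => ‖z‖ₑ ^ p) (by fun_prop) h _
    (fun J => U (J ∘ Fintype.equivFin κ)) (I ∘ (Fintype.equivFin κ).symm)
  rw [← lint_reindex ν (Fintype.equivFin κ) s (fun z => ‖z‖ₑ ^ p) U] at this
  simpa [tv, Function.comp_assoc] using this

end Pool.Agent.Lib.MP_5c318e_ag.Fl
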