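import Pool.Agent.Lib.MP_5c318e_ag.P.FDefs

/-! Diagonals of tensors without a common zero generate all forms of one degree; ratios. -/

set_option autoImplicit false
set_option linter.unusedSectionVars false

namespace Pool.Agent.Lib.MP_5c318e_ag.Fl

open MvPolynomial

variable {r κ : Type} [Fintype r] [DecidableEq r] [Fintype κ] [DecidableEq κ]

/-- tensor products and diagonals -/
theorem dg_pow {R β : Type} [CommRing R] [Fintype β] [DecidableEq β] (U : (κ → r) → R) :
    dg (fun I : β × κ → r => ∏ b, U fun k => I (b, k)) = dg U ^ Fintype.card β := by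
  rw [← Finset.card_univ, ← Finset.prod_const, dg, dg, Fintype.prod_sum,
    ← (Equiv.curry β κ r).symm.sum_comp]
  refine Finset.sum_congr rfl fun I _ => ?_
  rw [Finset.prod_mul_distrib, map_prod, Fintype.prod_prod_type]
  rfl

namespace DgA

noncomputable section

/-- monomials of degree `d` -/
abbrev Mon (r : Type) (d : ℕ) : Type := {μ : r →₀ ℕ // μ.degree = d}

instance (d : ℕ) : Fintype (Mon r d) := (Finsupp.finite_of_degree_eq d).fintype

variable {A A' : Type} [CommRing A] [CommRing A']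

theorem dg_hom (U : (κ → r) → A) : (dg U).IsHomogeneous (Fintype.card κ) :=
  IsHomogeneous.sum _ _ _ fun I _ => IsHomogeneous.C_mul (by
    simpa using IsHomogeneous.prod Finset.univ (fun k => (X (I k) : MvPolynomial r A)) (fun _ => 1)
      fun k _ => isHomogeneous_X _ _) _

theorem dg_map (φ : A →+* A') (U : (κ → r) → A) : map φ (dg U) = dg fun I => φ (U I) := by
  simp [dg, map_sum, map_prod]

theorem hom_sum {d : ℕ} {P : MvPolynomial r A} (h : P.IsHomogeneous d) :
    P = ∑ μ : Mon r d, coeff μ.1 P • monomial μ.1 (1 : A) := by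
  ext ν
  simp only [coeff_sum, coeff_smul, coeff_monomial, smul_eq_mul, mul_ite, mul_one, mul_zero]
  by_cases e : ν.degree = d
  · rw [Finset.sum_eq_single (⟨ν, e⟩ : Mon r d) (fun b _ hb => if_neg fun h => hb (Subtype.ext h))
      (by simp), if_pos rfl]
  · rw [h.coeff_eq_zero e, Finset.sum_eq_zero fun μ _ => if_neg fun h : μ.1 = ν => e (h ▸ μ.2)]

theorem hc_mul {n R : ℕ} (P : MvPolynomial r A) {f : MvPolynomial r A} (hf : f.IsHomogeneous R) :
    homogeneousComponent (n + R) (P * f) = homogeneousComponent n P * f := by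
  conv_lhs => rw [← sum_homogeneousComponent P, Finset.sum_mul, map_sum]
  rw [Finset.sum_congr rfl fun i _ => homogeneousComponent_of_mem
    ((homogeneousComponent_isHomogeneous i P).mul hf)]
  simp only [add_left_inj, Finset.sum_ite_eq]
  split_ifs with h
  · rfl
  · rw [homogeneousComponent_eq_zero _ _ (by simpa using h), zero_mul]

variable {J : Type} [Fintype J]

theorem exists_Q {R : ℕ} (hR : 0 < R) {f : J → MvPolynomial r ℂ} (hf : ∀ j, (f j).IsHomogeneous R)
    (h : ∀ ξ : r → ℂ, (∀ j, eval ξ (f j) = 0) → ξ = 0) :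
    ∃ (k : ℕ) (Q : Mon r (k * R + R) → J → MvPolynomial r ℂ),
      (∀ μ j, (Q μ j).IsHomogeneous (k * R)) ∧ ∀ μ, ∑ j, Q μ j * f j = monomial μ.1 1 := by
  have h1 : ∀ i, ∃ n : ℕ, (X i : MvPolynomial r ℂ) ^ n ∈ Ideal.span (Set.range f) := fun i => by
    change X i ∈ (Ideal.span (Set.range f)).radical
    rw [← vanishingIdeal_zeroLocus_eq_radical (K := ℂ), mem_vanishingIdeal_iff]
    intro ξ hξ
    rw [h ξ fun j => hξ _ (Ideal.subset_span ⟨j, rfl⟩)]
    simp
  choose n hn using h1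
  have h2 : ∀ μ : Mon r ((∑ i, n i) * R + R), ∃ Q : J → MvPolynomial r ℂ,
      (∀ j, (Q j).IsHomogeneous ((∑ i, n i) * R)) ∧ ∑ j, Q j * f j = monomial μ.1 1 := fun μ => by
    obtain ⟨i, hi⟩ : ∃ i, n i ≤ μ.1 i := by
      by_contra hc
      push Not at hc
      have h3 := Finset.sum_le_sum fun i (_ : i ∈ Finset.univ) => (hc i).le
      rw [← Finsupp.degree_eq_sum, μ.2] at h3
      nlinarith [Nat.zero_le (∑ i, n i)]
    have h3 : (monomial μ.1 1 : MvPolynomial r ℂ) ∈ Ideal.span (Set.range f) := by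
      have : μ.1 = (μ.1 - Finsupp.single i (n i)) + Finsupp.single i (n i) :=
        (tsub_add_cancel_of_le (Finsupp.single_le_iff.2 hi)).symm
      rw [this, monomial_add_single]
      exact Ideal.mul_mem_left _ _ (hn i)
    obtain ⟨c, hc⟩ := Ideal.mem_span_range_iff_exists_fun.1 h3
    refine ⟨fun j => homogeneousComponent _ (c j), fun j => homogeneousComponent_isHomogeneous _ _, ?_⟩
    rw [← homogeneousComponent_eq_self (isHomogeneous_monomial 1 μ.2), ← hc, map_sum]
    exact Finset.sum_congr rfl fun j _ => (hc_mul _ (hf j)).symm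
  choose Q h3 h4 using h2
  exact ⟨_, Q, h3, h4⟩

variable [Algebra ℂ A] [Algebra ℂ A'] {d : ℕ}

/-- combinations of the diagonals -/
def GG (Q : J → MvPolynomial r ℂ) (V : J → (κ → r) → A) : MvPolynomial r A :=
  ∑ j, map (algebraMap ℂ A) (Q j) * dg (V j)

/-- their coefficients -/
def NN (Q : Mon r d → J → MvPolynomial r ℂ) (V : J → (κ → r) → A) : Matrix (Mon r d) (Mon r d) A :=
  Matrix.of fun μ ν => coeff ν.1 (GG (Q μ) V)

theorem det_map (φ : A →ₐ[ℂ] A') (Q : Mon r d → J → MvPolynomial r ℂ) (V : J → (κ → r) → A) :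
    φ (NN Q V).det = (NN Q fun j I => φ (V j I)).det := by
  rw [AlgHom.map_det]
  congr 1
  ext μ ν
  simp only [AlgHom.mapMatrix_apply, Matrix.map_apply, NN, Matrix.of_apply, GG]
  rw [← AlgHom.coe_toRingHom, ← coeff_map, map_sum]
  simp only [map_mul, dg_map, map_map, AlgHom.comp_algebraMap]

theorem det_ev {K : Type} [Field K] [Algebra ℂ K] {O : Subalgebra ℂ K} (p : Pt O)
    (Q : Mon r d → J → MvPolynomial r ℂ) {V : J → (κ → r) → K} (hV : ∀ j I, p.Reg (V j I)) :
    p.Reg (NN Q V).det ∧ p.ev (NN Q V).det = (NN Q fun j I => p.ev (V j I)).det := by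
  have h1 := det_map p.loc.val Q fun j I => ⟨V j I, hV j I⟩
  have h2 := det_map p.evh Q fun j I => ⟨V j I, hV j I⟩
  refine ⟨?_, ?_⟩
  · exact (show (NN Q V).det = _ from h1.symm) ▸ (NN Q fun j I => (⟨V j I, hV j I⟩ : p.loc)).det.2
  · exact (congrArg p.ev h1.symm).trans h2

theorem mem_of_det {F : Type} [Field F] [Algebra ℂ F] {n : ℕ}
    {Q : Mon r (n + Fintype.card κ) → J → MvPolynomial r ℂ} (hQ : ∀ μ j, (Q μ j).IsHomogeneous n)
    {V : J → (κ → r) → F} (h : (NN Q V).det ≠ 0) (S : Submodule F (MvPolynomial r F))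
    (hS : ∀ j (P : MvPolynomial r F), P.IsHomogeneous n → P * dg (V j) ∈ S)
    {P : MvPolynomial r F} (hP : P.IsHomogeneous (n + Fintype.card κ)) : P ∈ S := by
  have h1 : ∀ μ, ∑ ν, NN Q V μ ν • monomial ν.1 (1 : F) ∈ S := fun μ => by
    have : (GG (Q μ) V).IsHomogeneous (n + Fintype.card κ) :=
      IsHomogeneous.sum _ _ _ fun j _ => ((hQ μ j).map _).mul (dg_hom _)
    refine (show GG (Q μ) V = _ from hom_sum this) ▸ ?_
    exact S.sum_mem fun j _ => hS j _ ((hQ μ j).map _)
  rw [hom_sum hP]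
  refine S.sum_mem fun μ _ => S.smul_mem _ ?_
  have h2 := S.sum_mem (t := Finset.univ) fun ν _ => S.smul_mem ((NN Q V)⁻¹ μ ν) (h1 ν)
  simp only [Finset.smul_sum, smul_smul] at h2
  rw [Finset.sum_comm] at h2
  simp only [← Finset.sum_smul, ← Matrix.mul_apply, Matrix.nonsing_inv_mul _ h.isUnit] at h2
  simpa [Matrix.one_apply] using h2

theorem zero_of_det {F M : Type} [Field F] [Algebra ℂ F] [Field M] [Algebra F M] {n : ℕ}
    {Q : Mon r (n + Fintype.card κ) → J → MvPolynomial r ℂ} (hQ : ∀ μ j, (Q μ j).IsHomogeneous n)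
    {V : J → (κ → r) → F} (h : (NN Q V).det ≠ 0) {ξ : r → M} (hξ : ∀ j, aeval ξ (dg (V j)) = 0)
    (i : r) : ξ i ^ (n + Fintype.card κ) = 0 := by
  have := mem_of_det hQ h (LinearMap.ker (aeval ξ : MvPolynomial r F →ₐ[F] M).toLinearMap)
    (fun j P _ => by simp [hξ]) (isHomogeneous_X_pow i _)
  simpa using this

theorem exists_det {K : Type} [Field K] [Algebra ℂ K] [Nonempty κ] {O : Subalgebra ℂ K} (p : Pt O)
    (V : J → (κ → r) → K) (hV : ∀ j I, p.Reg (V j I))
    (h : ∀ ξ : r → ℂ, (∀ j, eval ξ (dg fun I => p.ev (V j I)) = 0) → ξ = 0) :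
    ∃ (k : ℕ) (Q : Mon r (k * Fintype.card κ + Fintype.card κ) → J → MvPolynomial r ℂ),
      (∀ μ j, (Q μ j).IsHomogeneous (k * Fintype.card κ)) ∧ p.ev (NN Q V).det = 1 := by
  obtain ⟨k, Q, h1, h2⟩ := exists_Q Fintype.card_pos (fun j => dg_hom _) h
  refine ⟨k, Q, h1, ?_⟩
  rw [(det_ev p Q hV).2, ← Matrix.det_one (n := Mon r (k * Fintype.card κ + Fintype.card κ))]
  congr 1
  ext μ ν
  simp [NN, GG, map_id, h2, coeff_monomial, Matrix.one_apply, Subtype.ext_iff]

end

end DgA

open DgA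

/-- having no common zero is an open condition -/
theorem gen_of_diag {K J : Type} [Field K] [Algebra ℂ K] [Finite J] [Nonempty κ]
    {O : Subalgebra ℂ K} (p : Pt O) (V : J → (κ → r) → K) (hV : ∀ j I, p.Reg (V j I))
    (h : ∀ ξ : r → ℂ, (∀ j, MvPolynomial.eval ξ (dg fun I => p.ev (V j I)) = 0) → ξ = 0) :
    ∃ del : K, p.Reg del ∧ p.ev del ≠ 0 ∧ ∀ q : Pt O, (∀ j I, q.Reg (V j I)) → q.Reg del →
      q.ev del ≠ 0 → ∀ ξ : r → ℂ,
        (∀ j, MvPolynomial.eval ξ (dg fun I => q.ev (V j I)) = 0) → ξ = 0 := by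
  have := Fintype.ofFinite J
  obtain ⟨k, Q, h1, h2⟩ := exists_det p V hV h
  refine ⟨_, (det_ev p Q hV).1, h2 ▸ one_ne_zero, fun q hq _ h3 ξ hξ => funext fun i => ?_⟩
  rw [(det_ev q Q hq).2] at h3
  exact pow_eq_zero_iff (Nat.add_pos_right _ Fintype.card_pos).ne' |>.1 (zero_of_det h1 h3 hξ i)

theorem alg_of_diag {K M J : Type} [Field K] [Algebra ℂ K] [Field M] [Algebra K M] [Finite J]
    [Nonempty κ] {O : Subalgebra ℂ K} (p : Pt O) (V : J → (κ → r) → K) (hV : ∀ j I, p.Reg (V j I))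
    (h : ∀ ξ : r → ℂ, (∀ j, MvPolynomial.eval ξ (dg fun I => p.ev (V j I)) = 0) → ξ = 0)
    (τ : r → M) (hτ : ∃ i, τ i ≠ 0) :
    (∃ j, MvPolynomial.aeval τ (dg (V j)) ≠ 0) ∧
    ∀ (c : M) (T : Set M), c ≠ 0 →
      (∀ j, MvPolynomial.aeval τ (dg (V j)) ≠ 0 → c * MvPolynomial.aeval τ (dg (V j)) ∈ T) →
      ∀ φ ∈ Submodule.span K (Set.range τ), ∀ ψ ∈ Submodule.span K (Set.range τ),
        IsAlgebraic (IntermediateField.adjoin K {g | ∃ s ∈ T, ∃ t ∈ T, g = s / t}) (φ / ψ) := by
  have := Fintype.ofFinite J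
  obtain ⟨k, Q, h1, h2⟩ := exists_det p V hV h
  have h3 : (NN Q V).det ≠ 0 := fun e => by simp [e] at h2
  obtain ⟨i0, hi0⟩ := hτ
  have h4 : ∃ j, aeval τ (dg (V j)) ≠ 0 := by
    by_contra hc
    push Not at hc
    exact pow_ne_zero _ hi0 (zero_of_det h1 h3 hc i0)
  refine ⟨h4, fun c T hc hT => ?_⟩
  obtain ⟨j0, hj0⟩ := h4
  set L := IntermediateField.adjoin K {g | ∃ s ∈ T, ∃ t ∈ T, g = s / t}
  set t := aeval τ (dg (V j0))
  have hL : ∀ j, aeval τ (dg (V j)) / t ∈ L := fun j => by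
    by_cases e : aeval τ (dg (V j)) = 0
    · rw [e, zero_div]; exact L.zero_mem
    · exact IntermediateField.subset_adjoin _ _
        ⟨_, hT j e, _, hT j0 hj0, (mul_div_mul_left _ _ hc).symm⟩
  let W : Submodule L M := Submodule.span L
    (Set.range fun ν : Mon r (k * Fintype.card κ) => aeval τ (monomial ν.1 (1 : K)) / t ^ k)
  have hW : ∀ P : MvPolynomial r K, P.IsHomogeneous (k * Fintype.card κ) →
      aeval τ P / t ^ k ∈ W := fun P hP => by
    rw [hom_sum hP, map_sum, Finset.sum_div]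
    refine W.sum_mem fun ν _ => ?_
    rw [map_smul, smul_div_assoc]
    exact W.smul_of_tower_mem _ (Submodule.subset_span ⟨ν, rfl⟩)
  have hW1 : ∀ P : MvPolynomial r K, P.IsHomogeneous (k * Fintype.card κ + Fintype.card κ) →
      aeval τ P / t ^ (k + 1) ∈ W := fun P hP => by
    have := mem_of_det h1 h3 ((W.restrictScalars K).comap ((LinearMap.mulRight K (t ^ (k + 1))⁻¹).comp
      (aeval τ : MvPolynomial r K →ₐ[K] M).toLinearMap)) (fun j P hP => by
        have := W.smul_mem ⟨_, hL j⟩ (hW P hP)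
        simp only [Submodule.mem_comap, Submodule.restrictScalars_mem, LinearMap.comp_apply,
          LinearMap.mulRight_apply, AlgHom.toLinearMap_apply, map_mul]
        convert this using 1
        rw [IntermediateField.smul_def, smul_eq_mul, pow_succ]
        field_simp) hP
    rw [div_eq_mul_inv]
    exact this
  have key : ∀ φ ∈ Submodule.span K (Set.range τ), IsAlgebraic L (φ ^ Fintype.card κ / t) := by
    intro φ hφ
    obtain ⟨a, rfl⟩ := (Submodule.mem_span_range_iff_exists_fun K).1 hφ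
    have hl : (∑ i, C (a i) * X i : MvPolynomial r K).IsHomogeneous 1 :=
      IsHomogeneous.sum _ _ _ fun i _ => (isHomogeneous_X _ _).C_mul _
    refine (isIntegral_of_smul_mem_submodule W ?_ (Submodule.fg_span (Set.finite_range _)) _
      fun w hw => ?_).isAlgebraic
    · rw [Submodule.ne_bot_iff]
      refine ⟨_, hW _ (isHomogeneous_X_pow i0 _), ?_⟩
      simp [hi0, hj0]
    · induction hw using Submodule.span_induction with
      | mem w hw =>
        obtain ⟨ν, rfl⟩ := hw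
        have := hW1 _ ((isHomogeneous_monomial (1 : K) ν.2).mul (by simpa using hl.pow (Fintype.card κ)))
        convert this using 1
        simp only [map_mul, map_pow, map_sum, aeval_C, aeval_X, smul_eq_mul, Algebra.smul_def,
          pow_succ t]
        field_simp
      | zero => simp
      | add a b _ _ ha hb => rw [smul_add]; exact W.add_mem ha hb
      | smul a b _ hb => rw [smul_comm]; exact W.smul_mem _ hb
  intro φ hφ ψ hψ
  refine IsAlgebraic.of_pow (Fintype.card_pos (α := κ)) ?_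
  have := (key φ hφ).mul (key ψ hψ).inv
  rwa [← div_eq_mul_inv, div_div_div_cancel_right₀ hj0, ← div_pow] at this

end Pool.Agent.Lib.MP_5c318e_ag.Fl
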