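import Pool.Agent.Lib.MP_5c318e_ag.P.Ten
import Pool.Agent.Lib.MP_5c318e_ag.S.RCov
import Pool.Agent.Lib.MP_5c318e_ag.H.Lift

/-! The canonical connection of a parallel structure is holomorphic and of moderate growth. -/

set_option autoImplicit false
set_option linter.unusedSectionVars false

namespace Pool.Agent.Lib.MP_5c318e_ag.Fl

open Filter Topology Matrix Set Metric

noncomputable section

variable {ω γ : Type} [Fintype ω] [DecidableEq ω] [Fintype γ] [DecidableEq γ]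

/-- the coordinate direction `x j` -/
def ex (ω : Type) [DecidableEq ω] (j : γ) : ω ⊕ γ → ℂ := Pi.single (Sum.inr j) 1

theorem wc_line (z : ω ⊕ γ → ℂ) (t : ℂ) (j : γ) : wc (z + t • ex ω j) = wc z := by
  funext i; simp [wc, ex]

theorem ana_line (z v : ω ⊕ γ → ℂ) (t : ℂ) : AnalyticAt ℂ (fun t : ℂ => z + t • v) t :=
  analyticAt_const.add (analyticAt_id.smul analyticAt_const)

theorem tend_line (z v : ω ⊕ γ → ℂ) : Tendsto (fun t : ℂ => z + t • v) (𝓝 0) (𝓝 z) := by
  simpa using (ana_line z v 0).continuousAt.tendsto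

theorem der_line {f : (ω ⊕ γ → ℂ) → ℂ} {z : ω ⊕ γ → ℂ} (hf : DifferentiableAt ℂ f z)
    (v : ω ⊕ γ → ℂ) : HasDerivAt (fun t : ℂ => f (z + t • v)) (fderiv ℂ f z v) 0 := by
  have h : HasDerivAt (fun t : ℂ => z + t • v) v 0 := by
    simpa using ((hasDerivAt_id (0 : ℂ)).smul_const v).const_add z
  exact hf.hasFDerivAt.comp_hasDerivAt_of_eq 0 h (by simp)

open Classical in
/-- an invertible matrix as a unit -/
def un {r : Type} [Fintype r] [DecidableEq r] (M : Matrix r r ℂ) : (Matrix r r ℂ)ˣ :=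
  if h : IsUnit M then h.unit else 1

theorem un_coe {r : Type} [Fintype r] [DecidableEq r] {M : Matrix r r ℂ} (h : M.det ≠ 0) :
    (un M : Matrix r r ℂ) = M := by
  rw [un, dif_pos ((isUnit_iff_isUnit_det M).2 h.isUnit), IsUnit.unit_spec]

namespace Par

variable {S : Type} [TopologicalSpace S] [MeasurableSpace S] [BorelSpace S] [T2Space S]
  {D : RD (ω ⊕ γ) S} {g : MvPolynomial (ω ⊕ γ) ℂ} {r : Type} [Fintype r] [DecidableEq r]
  (P : Par D g r)

/-- the connection matrix in the direction `x j` -/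
def cn (j : γ) (p : S) (a b : r) : ℂ :=
  deriv (fun t : ℂ => (P.A p (D.π p + t • ex ω j) * (P.A p (D.π p))⁻¹) a b) 0

theorem cn_eq {p : S} (hp : MvPolynomial.eval (D.π p) g ≠ 0) : ∀ᶠ q in 𝓝 p, ∀ j a b,
    HasDerivAt (fun t : ℂ => (P.A p (D.π q + t • ex ω j) * (P.A p (D.π q))⁻¹) a b)
      (P.cn j q a b) 0 := by
  have h : AnM (P.A p) (D.π p) := P.ana p hp
  filter_upwards [P.tr_eq hp, D.cont_π.continuousAt.eventually h.ev] with q h1 h2 j a b
  have t := tend_line (D.π q) (ex ω j)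
  have e : (fun t : ℂ => (P.A q (D.π q + t • ex ω j) * (P.A q (D.π q))⁻¹) a b) =ᶠ[𝓝 0]
      fun t : ℂ => (P.A p (D.π q + t • ex ω j) * (P.A p (D.π q))⁻¹) a b := by
    filter_upwards [((D.tendsto_sec q).comp t).eventually h1, t.eventually (D.π_sec_ev q)]
      with s k1 k2
    have := k1 (by simp only [Function.comp, k2, wc_line])
    simp only [Function.comp, tr, k2] at this
    rw [this]
  rw [cn, e.deriv_eq]
  exact ((AnM.comp (f := fun t : ℂ => D.π q + t • ex ω j) (y := 0) (by simpa using h2)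
    (ana_line _ _ _)).mul (AnM.const _) a b).differentiableAt.hasDerivAt

theorem cn_hol {p : S} (hp : MvPolynomial.eval (D.π p) g ≠ 0) (j : γ) (a b : r) :
    DifferentiableAt ℂ (fun z => P.cn j (D.sec p z) a b) (D.π p) := by
  have h : AnM (P.A p) (D.π p) := P.ana p hp
  have e : (fun z => P.cn j (D.sec p z) a b) =ᶠ[𝓝 (D.π p)]
      fun z => ∑ c, fderiv ℂ (fun z => P.A p z a c) z (ex ω j) * (P.A p z)⁻¹ c b := by
    filter_upwards [(D.tendsto_sec p).eventually (P.cn_eq hp), D.π_sec_ev p, h.ev] with z h1 h2 h3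
    have := h1 j a b
    simp only [h2, Matrix.mul_apply] at this
    exact this.unique (HasDerivAt.fun_sum fun c _ =>
      (der_line (h3 a c).differentiableAt _).mul_const _)
  refine DifferentiableAt.congr_of_eventuallyEq ?_ e
  exact DifferentiableAt.fun_sum fun c _ => ((h a c).fderiv.differentiableAt.clm_apply
    (differentiableAt_const _)).fun_mul (h.inv (P.det p hp) c b).differentiableAt

/-- transport along a disc in a slice -/
theorem disc {O : Set ℂ} (hO : IsOpen O) (hc : Convex ℝ O) (h0 : 0 ∈ O) {f : ℂ → S}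
    (hf : ∀ t ∈ O, ContinuousAt f t) {z : ω ⊕ γ → ℂ} {j : γ}
    (hπ : ∀ t ∈ O, D.π (f t) = z + t • ex ω j)
    (hg : ∀ t ∈ O, MvPolynomial.eval (D.π (f t)) g ≠ 0) :
    ∃ T : ℂ → Matrix r r ℂ, (∀ t ∈ O, AnM T t ∧ T t ∈ P.Iso (f 0) (f t)) ∧
      ∀ a b, deriv (fun t => T t a b) 0 = P.cn j (f 0) a b := by
  have hw : ∀ t ∈ O, ∀ s ∈ O, wc (D.π (f s)) = wc (D.π (f t)) := fun t ht s hs => by
    rw [hπ t ht, hπ s hs, wc_line, wc_line]
  have hi : ∀ t ∈ O, ∀ᶠ s in 𝓝 t, s ∈ O ∧ P.tr (f t) (f s) ∈ P.Iso (f t) (f s) ∧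
      (P.tr (f t) (f s)).det ≠ 0 := fun t ht => by
    filter_upwards [hO.mem_nhds ht, (hf t ht).eventually (P.tr_iso (hg t ht))] with s hs h
    exact ⟨hs, h (hw t ht s hs), (P.inv (hg t ht) (hg s hs) (h (hw t ht s hs))).1⟩
  obtain ⟨k, k0, hk⟩ := Abs.lift_open hO (Abs.convex_simplyConnected hc ⟨0, h0⟩)
    (fun t s => MulOpposite.op (un (P.tr (f t) (f s)))) (fun t ht => by
      rw [P.tr_self (hg t ht)]
      exact congrArg MulOpposite.op (Units.ext (un_coe (by simp)))) (fun t ht => by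
      filter_upwards [hi t ht, (hf t ht).eventually (P.tr_co (hg t ht))] with s h1 h2
      filter_upwards [hi s h1.1, (hf s h1.1).eventually h2] with u h3 h4
      rw [← MulOpposite.op_mul, h4 (hw s h1.1 u h3.1)]
      refine congrArg MulOpposite.op (Units.ext ?_)
      rw [Units.val_mul, un_coe h3.2.2, un_coe h1.2.2,
        un_coe (by rw [det_mul]; exact mul_ne_zero h3.2.2 h1.2.2)]) h0 1
  let T : ℂ → Matrix r r ℂ := fun t => ((k t).unop : (Matrix r r ℂ)ˣ)
  have T0 : T 0 = 1 := by simp [T, k0]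
  have hT : ∀ t ∈ O, ∀ᶠ s in 𝓝 t, T s = P.tr (f t) (f s) * T t := fun t ht => by
    filter_upwards [hk t ht, hi t ht] with s h1 h2
    simp only [T, h1, MulOpposite.unop_mul, MulOpposite.unop_op, Units.val_mul, un_coe h2.2.2]
  have hT' : ∀ t ∈ O, T =ᶠ[𝓝 t] fun s =>
      P.A (f t) (z + s • ex ω j) * (P.A (f t) (D.π (f t)))⁻¹ * T t := fun t ht => by
    filter_upwards [hT t ht, hO.mem_nhds ht] with s h1 h2
    rw [h1, tr, hπ s h2]
  refine ⟨T, fun t ht => ⟨fun a b => ?_, ?_⟩, fun a b => ?_⟩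
  · refine AnalyticAt.congr ?_ ((hT' t ht).symm.mono fun s h => congrFun (congrFun h a) b)
    exact ((AnM.comp (f := fun s : ℂ => z + s • ex ω j) (by rw [← hπ t ht]; exact P.ana _ (hg t ht))
      (ana_line _ _ _)).mul (AnM.const _)).mul (AnM.const _) a b
  · have := Abs.const_of_eventually hc.isPreconnected (u := fun t => T t ∈ P.Iso (f 0) (f t))
      (fun t ht => mem_nhdsWithin_of_mem_nhds ?_) h0 ht
    · rw [← this, T0]; exact P.one _
    filter_upwards [hT t ht, hi t ht] with s h1 h2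
    refine propext ⟨fun h => ?_, fun h => h1 ▸ P.mul h h2.2.1⟩
    have := P.mul h (P.inv (hg t ht) (hg s h2.1) h2.2.1).2
    rwa [h1, nonsing_inv_mul_cancel_left _ _ h2.2.2.isUnit] at this
  · have e : D.π (f 0) = z := by simpa using hπ 0 h0
    refine EventuallyEq.deriv_eq ((hT' 0 h0).mono fun s h => ?_)
    simp only [h, T0, mul_one, e]

theorem cn_bd (C : D.Cov) : ∃ (A : ℝ) (N : ℕ), ∀ j a b p, MvPolynomial.eval (D.π p) g ≠ 0 →
    ‖P.cn j p a b‖ ≤ A * mg (g * C.Δ) (D.π p) ^ N := by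
  obtain ⟨c, N, hc, H⟩ := mg_ball (g * C.Δ)
  obtain ⟨A1, N1, hA, H1⟩ := mg_mul g C.Δ
  obtain ⟨c0, N0, H0⟩ := P.bd
  refine ⟨|c0| * (A1 * A1 * 4 ^ N1) ^ N0 * 2 / c, (N1 + N1) * N0 + N, fun j a b p hp => ?_⟩
  have hG : MvPolynomial.eval (D.π p) (g * C.Δ) ≠ 0 := by
    rw [map_mul]; exact mul_ne_zero hp (C.Δ_ne p)
  set m := mg (g * C.Δ) (D.π p) with hm
  have m1 : 1 ≤ m := one_le_mg _ _
  set ρ := c / m ^ N with hρ
  have ρ0 : 0 < ρ := by positivity
  have hb : ∀ z ∈ ball (D.π p) ρ, MvPolynomial.eval z (g * C.Δ) ≠ 0 ∧ mg (g * C.Δ) z ≤ 4 * m :=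
    fun z hz => H _ hG z (mem_ball_iff_norm.1 hz).le
  obtain ⟨σ, s0, s1, s2⟩ := C.lift_convex (convex_ball (D.π p) ρ)
    (fun z hz => right_ne_zero_of_mul (by simpa using (hb z hz).1)) (p := p) (mem_ball_self ρ0)
  have hl : ∀ t ∈ ball (0 : ℂ) ρ, D.π p + t • ex ω j ∈ ball (D.π p) ρ := fun t ht => by
    simpa [ex, norm_smul, Pi.norm_single] using ht
  have hg : ∀ t ∈ ball (0 : ℂ) ρ, MvPolynomial.eval (D.π (σ (D.π p + t • ex ω j))) g ≠ 0 :=
    fun t ht => by
      rw [s2 _ (hl t ht)]; exact left_ne_zero_of_mul (by simpa using (hb _ (hl t ht)).1)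
  obtain ⟨T, h1, h2⟩ := P.disc isOpen_ball (convex_ball 0 ρ) (mem_ball_self ρ0)
    (f := fun t => σ (D.π p + t • ex ω j)) (fun t ht => ContinuousAt.comp (g := σ)
      (s1.continuousAt (isOpen_ball.mem_nhds (hl t ht))) (ana_line _ _ _).continuousAt)
    (fun t ht => s2 _ (hl t ht)) hg
  simp only [zero_smul, add_zero, s0] at h1 h2
  have hs : closedBall (0 : ℂ) (ρ / 2) ⊆ ball 0 ρ := closedBall_subset_ball (by linarith)
  have key := Complex.norm_deriv_le_of_forall_mem_sphere_norm_le (c := 0) (R := ρ / 2)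
    (C := |c0| * (A1 * m ^ N1 * (A1 * (4 * m) ^ N1)) ^ N0) (f := fun t => T t a b) (by linarith)
    (DifferentiableOn.diffContOnCl_ball (fun t ht =>
      ((h1 t ht).1 a b).differentiableAt.differentiableWithinAt) hs) fun t ht => by
      have ht' := hs (sphere_subset_closedBall ht)
      have k1 := H0 _ _ hp (hg t ht') _ (h1 t ht').2 a b
      rw [s2 _ (hl t ht')] at k1
      have k2 := (H1 _ (hb _ (hl t ht')).1).trans (mul_le_mul_of_nonneg_left
        (pow_le_pow_left₀ (zero_le_one.trans (one_le_mg _ _)) (hb _ (hl t ht')).2 N1) hA)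
      have p1 := zero_le_one.trans (one_le_mg g (D.π p))
      have p2 := zero_le_one.trans (one_le_mg g (D.π p + t • ex ω j))
      exact k1.trans (mul_le_mul (le_abs_self _) (pow_le_pow_left₀ (by positivity)
        (mul_le_mul (H1 _ hG) k2 p2 (by positivity)) _) (by positivity) (abs_nonneg _))
  rw [h2] at key
  refine key.trans (le_of_eq ?_)
  rw [hρ]
  simp only [mul_pow, pow_add, pow_mul]
  field_simp

end Par

end

end Pool.Agent.Lib.MP_5c318e_ag.Fl
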