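import Pool.Agent.Lib.MP_5c318e_ag.P.Conn

/-! Horizontal vector fields are the solutions of the connection equations. -/

set_option autoImplicit false
set_option linter.unusedSectionVars false

namespace Pool.Agent.Lib.MP_5c318e_ag.Fl

open Filter Topology Matrix Set Metric

variable {ω γ : Type} [Fintype ω] [DecidableEq ω] [Fintype γ] [DecidableEq γ]

theorem ana_sl (w : ω → ℂ) (x : γ → ℂ) : AnalyticAt ℂ (fun x : γ → ℂ => Sum.elim w x) x := by
  refine analyticAt_pi_iff.2 fun i => ?_
  cases i with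
  | inl i => exact analyticAt_const
  | inr j => exact (ContinuousLinearMap.proj (R := ℂ) (φ := fun _ : γ => ℂ) j).analyticAt x

theorem sl_eq {z : ω ⊕ γ → ℂ} {w : ω → ℂ} (h : wc z = w) :
    Sum.elim w (fun j => z (Sum.inr j)) = z := by
  subst h; funext i; cases i <;> rfl

/-- a function whose derivatives along the slices vanish is constant along the slices -/
theorem const_sl {f : (ω ⊕ γ → ℂ) → ℂ} {z0 : ω ⊕ γ → ℂ}
    (h : ∀ᶠ z in 𝓝 z0, DifferentiableAt ℂ f z ∧ ∀ j, fderiv ℂ f z (ex ω j) = 0) :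
    ∀ᶠ z in 𝓝 z0, wc z = wc z0 → f z = f z0 := by
  obtain ⟨ε, ε0, hε⟩ := Metric.mem_nhds_iff.1 h
  filter_upwards [ball_mem_nhds z0 ε0] with z hz e
  have hv : z - z0 = ∑ j, (z - z0) (Sum.inr j) • ex ω j := by
    funext i
    cases i with
    | inl i => simpa [ex, Finset.sum_apply, sub_eq_zero, wc] using congrFun e i
    | inr i => simp [ex, Finset.sum_apply, Pi.single_apply]
  let l : ℂ →ᵃ[ℝ] (ω ⊕ γ → ℂ) := AffineMap.const ℝ ℂ z0 +
    ((LinearMap.toSpanSingleton ℂ _ (z - z0)).restrictScalars ℝ).toAffineMap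
  have hl : ∀ s, l s = z0 + s • (z - z0) := fun s => rfl
  have hd : ∀ s ∈ l ⁻¹' ball z0 ε, HasDerivAt (fun s : ℂ => f (z0 + s • (z - z0))) 0 s := by
    intro s hs
    obtain ⟨a, b⟩ := hε hs
    have k : HasDerivAt (fun s : ℂ => z0 + s • (z - z0)) (z - z0) s := by
      simpa using ((hasDerivAt_id s).smul_const (z - z0)).const_add z0
    have := a.hasFDerivAt.comp_hasDerivAt s k
    rwa [show fderiv ℂ f (l s) (z - z0) = 0 by rw [hv, map_sum]; simp [b]] at this
  have := IsOpen.is_const_of_deriv_eq_zero (s := l ⁻¹' ball z0 ε) (isOpen_ball.preimage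
    (continuous_iff_continuousAt.2 fun s => (ana_line z0 (z - z0) s).continuousAt))
    ((convex_ball z0 ε).affine_preimage l).isPreconnected
    (fun s hs => (hd s hs).differentiableAt.differentiableWithinAt) (fun s hs => (hd s hs).deriv)
    (x := 1) (y := 0) (by simpa [hl] using hz) (by simpa [hl] using ε0)
  simpa using this

namespace Par

variable {S : Type} [TopologicalSpace S] [MeasurableSpace S] [BorelSpace S] [T2Space S]
  {D : RD (ω ⊕ γ) S} {g : MvPolynomial (ω ⊕ γ) ℂ} {r : Type} [Fintype r] [DecidableEq r]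
  (P : Par D g r) {u : S → r → ℂ} {p : S}

theorem der_of_hor (hp : MvPolynomial.eval (D.π p) g ≠ 0)
    (hu : ∀ᶠ q in 𝓝 p, wc (D.π q) = wc (D.π p) → u q = P.tr p q *ᵥ u p) (j : γ) (a : r) :
    HasDerivAt (fun t : ℂ => u (D.sec p (D.π p + t • ex ω j)) a)
      (∑ b, P.cn j p a b * u p b) 0 := by
  have t := tend_line (D.π p) (ex ω j)
  refine (HasDerivAt.fun_sum fun b _ =>
    ((P.cn_eq hp).self_of_nhds j a b).mul_const (u p b)).congr_of_eventuallyEq ?_
  filter_upwards [((D.tendsto_sec p).comp t).eventually hu, t.eventually (D.π_sec_ev p)]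
    with s k1 k2
  have := k1 (by simp only [Function.comp, k2, wc_line])
  simp only [Function.comp, tr, k2] at this
  rw [this]; rfl

theorem diff_of_hor (hp : MvPolynomial.eval (D.π p) g ≠ 0) {w : ω → ℂ} (hw : wc (D.π p) = w)
    (hu : ∀ᶠ q in 𝓝 p, wc (D.π q) = wc (D.π p) → u q = P.tr p q *ᵥ u p) (a : r) :
    DifferentiableAt ℂ (fun x : γ → ℂ => u (D.sec p (Sum.elim w x)) a)
      fun i => D.π p (Sum.inr i) := by
  have t := (ana_sl w fun i => D.π p (Sum.inr i)).continuousAt.tendsto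
  rw [sl_eq hw] at t
  have h := (AnM.comp (f := fun x : γ → ℂ => Sum.elim w x) (y := fun i => D.π p (Sum.inr i))
    (by rw [sl_eq hw]; exact P.ana p hp) (ana_sl _ _)).mul (AnM.const (P.A p (D.π p))⁻¹)
  refine (DifferentiableAt.fun_sum (u := Finset.univ) fun b _ =>
    (h a b).differentiableAt.mul_const (u p b)).congr_of_eventuallyEq ?_
  filter_upwards [((D.tendsto_sec p).comp t).eventually hu, t.eventually (D.π_sec_ev p)]
    with s k1 k2
  have := k1 (by simp only [Function.comp, k2, hw]; rfl)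
  simp only [Function.comp, tr, k2] at this
  rw [this]; rfl

theorem hor_of_der (hp : MvPolynomial.eval (D.π p) g ≠ 0)
    (hu : ∀ᶠ q in 𝓝 p, ∀ a, DifferentiableAt ℂ (fun z => u (D.sec q z) a) (D.π q) ∧
      ∀ j, fderiv ℂ (fun z => u (D.sec q z) a) (D.π q) (ex ω j) = ∑ b, P.cn j q a b * u q b) :
    ∀ᶠ q in 𝓝 p, wc (D.π q) = wc (D.π p) → u q = P.tr p q *ᵥ u p := by
  have hA : AnM (P.A p) (D.π p) := P.ana p hp
  let V : (ω ⊕ γ → ℂ) → r → ℂ := fun z => (P.A p z)⁻¹ *ᵥ u (D.sec p z)
  have key : ∀ᶠ z in 𝓝 (D.π p), ∀ c, DifferentiableAt ℂ (fun z => V z c) z ∧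
      ∀ j, fderiv ℂ (fun z => V z c) z (ex ω j) = 0 := by
    filter_upwards [hA.ev, hA.det_ev (P.det p hp), (D.tendsto_sec p).eventually hu,
      (D.tendsto_sec p).eventually (P.cn_eq hp), RD.tgt_nhds (D.mem_tgt p)] with z h1 h2 h3 h4 h5
    simp only [RD.π_sec h5] at h3 h4
    have e : ∀ a, (fun y => u (D.sec p y) a) =ᶠ[𝓝 z] fun y => u (D.sec (D.sec p z) y) a :=
      fun a => RD.germ_f (fun y => u y a) h5
    have d : ∀ a, DifferentiableAt ℂ (fun y => u (D.sec p y) a) z := fun a =>
      (h3 a).1.congr_of_eventuallyEq (e a)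
    have dV : ∀ c, DifferentiableAt ℂ (fun z => V z c) z := fun c =>
      DifferentiableAt.fun_sum (u := Finset.univ) fun b _ =>
        (h1.inv h2 c b).differentiableAt.fun_mul (d b)
    refine fun c => ⟨dV c, fun j => ?_⟩
    have k : P.A p z *ᵥ (fun c => fderiv ℂ (fun z => V z c) z (ex ω j)) = 0 := by
      funext a
      have k1 := der_line (d a) (ex ω j)
      rw [(e a).fderiv_eq, (h3 a).2 j] at k1
      have k2 := HasDerivAt.fun_sum (u := Finset.univ) fun b _ => (h4 j a b).fun_mul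
        (HasDerivAt.fun_sum (u := Finset.univ) fun c _ =>
          (der_line (dV c) (ex ω j)).const_mul (P.A p z b c))
      have k3 := k1.unique (k2.congr_of_eventuallyEq (by
        filter_upwards [(tend_line z (ex ω j)).eventually (h1.det_ev h2)] with t ht
        change _ = ((P.A p (z + t • ex ω j) * (P.A p z)⁻¹) *ᵥ (P.A p z *ᵥ V (z + t • ex ω j))) a
        simp only [V, mulVec_mulVec]
        rw [← mul_assoc, nonsing_inv_mul_cancel_right _ _ h2.isUnit,
          mul_nonsing_inv _ ht.isUnit, one_mulVec]))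
      have k4 : ∀ b, ∑ c, P.A p z b c * V z c = u (D.sec p z) b := fun b => by
        change (P.A p z *ᵥ V z) b = _
        simp only [V, mulVec_mulVec, mul_nonsing_inv _ h2.isUnit, one_mulVec]
      simp only [zero_smul, add_zero, k4, mul_nonsing_inv _ h2.isUnit, Finset.sum_add_distrib,
        left_eq_add] at k3
      simpa [one_apply, mulVec, dotProduct] using k3
    exact congrFun (eq_zero_of_mulVec_eq_zero h2 k) c
  have k2 := eventually_all.2 fun c => const_sl (key.mono fun z h => h c)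
  filter_upwards [D.cont_π.continuousAt.eventually k2,
    (D.ch p).open_source.mem_nhds (D.mem_src p),
    D.cont_π.continuousAt.eventually (hA.det_ev (P.det p hp))] with q h1 h2 h3 e
  have : V (D.π q) = V (D.π p) := funext fun c => h1 c e
  simp only [V, RD.sec_π h2, D.sec_self] at this
  rw [tr, ← mulVec_mulVec, ← this, mulVec_mulVec, mul_nonsing_inv _ h3.isUnit, one_mulVec]

end Par

end Pool.Agent.Lib.MP_5c318e_ag.Fl
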