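import Mathlib

/-! A linear holomorphic ODE on a disc has a fundamental solution on the whole disc; Cauchy bound
for a connection matrix whose local frames are isometries. -/

namespace Ode

open Metric Set Filter Topology

section Alg

variable {𝔸 : Type*} [NormedRing 𝔸] [NormedAlgebra ℂ 𝔸] [CompleteSpace 𝔸]

lemma picard {c : ℂ} {R : ℝ} {C : ℂ → 𝔸} (hC : DifferentiableOn ℂ C (ball c R)) :
    ∃ B : ℕ → ℂ → 𝔸, (∀ z, B 0 z = 1) ∧ (∀ n, B (n + 1) c = 0) ∧
      ∀ n, ∀ z ∈ ball c R, HasDerivAt (B (n + 1)) (C z * B n z) z := by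
  have step : ∀ f : {f : ℂ → 𝔸 // DifferentiableOn ℂ f (ball c R)},
      ∃ g : {f : ℂ → 𝔸 // DifferentiableOn ℂ f (ball c R)}, g.1 c = 0 ∧
        ∀ z ∈ ball c R, HasDerivAt g.1 (C z * f.1 z) z := fun f => by
    obtain ⟨g, h0, hg⟩ := (hC.mul f.2).isExactOn_ball.with_val_at c 0
    exact ⟨⟨g, fun z hz => (hg z hz).differentiableAt.differentiableWithinAt⟩, h0, hg⟩
  choose T hT0 hT using step
  refine ⟨fun n => (T^[n] ⟨fun _ => 1, differentiableOn_const 1⟩).1, fun _ => rfl, fun n => ?_,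
    fun n z hz => ?_⟩
  · simp only [Function.iterate_succ_apply']; exact hT0 _
  · simp only [Function.iterate_succ_apply']; exact hT _ z hz

omit [CompleteSpace 𝔸] in
lemma picard_bound {c : ℂ} {ρ M : ℝ} {C : ℂ → 𝔸} {B : ℕ → ℂ → 𝔸} (hM : ∀ z ∈ ball c ρ, ‖C z‖ ≤ M)
    (h0 : ∀ z, B 0 z = 1) (hc : ∀ n, B (n + 1) c = 0)
    (hB : ∀ n, ∀ z ∈ ball c ρ, HasDerivAt (B (n + 1)) (C z * B n z) z) (n : ℕ) :
    ∀ z ∈ ball c ρ, ‖B n z‖ ≤ ‖(1 : 𝔸)‖ * ((M * ‖z - c‖) ^ n / n.factorial) := by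
  induction n with
  | zero => intro z _; simp [h0]
  | succ n ih =>
    intro z hz
    have hM0 : 0 ≤ M := (norm_nonneg _).trans (hM z hz)
    set γ : ℝ → ℂ := fun t => c + (t : ℂ) * (z - c) with hγ
    have hn : ∀ t : ℝ, 0 ≤ t → ‖γ t - c‖ = t * ‖z - c‖ := fun t ht => by
      simp [hγ, abs_of_nonneg ht]
    have hin : ∀ t ∈ Icc (0 : ℝ) 1, γ t ∈ ball c ρ := fun t ht => by
      rw [mem_ball_iff_norm] at hz ⊢
      rw [hn t ht.1]
      nlinarith [norm_nonneg (z - c), ht.1, ht.2]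
    have hγ' : ∀ t : ℝ, HasDerivAt γ (z - c) t := fun t => by
      simpa [hγ] using ((Complex.ofRealCLM.hasDerivAt (x := t)).mul_const (z - c)).const_add c
    have hd : ∀ t ∈ Icc (0 : ℝ) 1, HasDerivAt (fun t => B (n + 1) (γ t))
        ((z - c) • (C (γ t) * B n (γ t))) t := fun t ht =>
      ((hB n _ (hin t ht)).hasFDerivAt.restrictScalars ℝ).comp_hasDerivAt t (hγ' t) |>.congr_deriv
        (by simp)
    have key := image_norm_le_of_norm_deriv_right_le_deriv_boundary (a := 0) (b := 1)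
      (f := fun t => B (n + 1) (γ t))
      (B := fun t => ‖(1 : 𝔸)‖ * ((M * ‖z - c‖) ^ (n + 1) / (n + 1).factorial) * t ^ (n + 1))
      (B' := fun t => ‖(1 : 𝔸)‖ * ((M * ‖z - c‖) ^ (n + 1) / (n + 1).factorial) *
        (((n + 1 : ℕ) : ℝ) * t ^ n))
      (fun t ht => (hd t ht).continuousAt.continuousWithinAt)
      (fun t ht => (hd t (Ico_subset_Icc_self ht)).hasDerivWithinAt)
      (by simp [hγ, hc]) (fun t => by simpa using (hasDerivAt_pow (n + 1) t).const_mul _)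
      (fun t ht => by
        have h1 := ih _ (hin t (Ico_subset_Icc_self ht))
        rw [hn t ht.1] at h1
        have h2 := hM _ (hin t (Ico_subset_Icc_self ht))
        calc _ ≤ ‖z - c‖ * (M * (‖(1 : 𝔸)‖ * ((M * (t * ‖z - c‖)) ^ n / n.factorial))) := by
              rw [norm_smul]
              refine mul_le_mul_of_nonneg_left ((norm_mul_le _ _).trans ?_) (norm_nonneg _)
              exact mul_le_mul h2 h1 (norm_nonneg _) hM0
          _ = _ := by
              rw [Nat.factorial_succ]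
              push_cast
              field_simp
              ring)
      (right_mem_Icc.2 zero_le_one)
    simpa [hγ] using key

/-- fundamental solution on the whole disc -/
theorem exists_sol {c : ℂ} {R : ℝ} {C : ℂ → 𝔸} (hC : DifferentiableOn ℂ C (ball c R)) :
    ∃ A : ℂ → 𝔸, A c = 1 ∧ ∀ z ∈ ball c R, HasDerivAt A (C z * A z) z := by
  obtain ⟨B, h0, hc, hB⟩ := picard hC
  refine ⟨fun z => 1 + ∑' n, B (n + 1) z, by simp [hc], fun z hz => ?_⟩
  obtain ⟨ρ, hρ1, hρ2⟩ := exists_between (mem_ball.1 hz)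
  have hsub : closedBall c ρ ⊆ ball c R := closedBall_subset_ball hρ2
  obtain ⟨M, hM⟩ := (isCompact_closedBall c ρ).exists_bound_of_continuousOn
    (hC.continuousOn.mono hsub)
  have hzρ : z ∈ ball c ρ := hρ1
  have hM' : ∀ w ∈ ball c ρ, ‖C w‖ ≤ M := fun w hw => hM w (ball_subset_closedBall hw)
  have hM0 : 0 ≤ M := (norm_nonneg _).trans (hM' z hzρ)
  have hB' : ∀ n, ∀ w ∈ ball c ρ, HasDerivAt (B (n + 1)) (C w * B n w) w := fun n w hw =>
    hB n w (hsub (ball_subset_closedBall hw))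
  have hb : ∀ n, ∀ w ∈ ball c ρ, ‖B n w‖ ≤ ‖(1 : 𝔸)‖ * ((M * ρ) ^ n / n.factorial) :=
    fun n w hw => (picard_bound hM' h0 hc hB' n w hw).trans (by
      have := (mem_ball_iff_norm.1 hw).le
      gcongr)
  have hs : Summable fun n : ℕ => ‖(1 : 𝔸)‖ * ((M * ρ) ^ n / n.factorial) :=
    (Real.summable_pow_div_factorial _).mul_left _
  have hsz : Summable fun n => B n z := .of_norm_bounded hs fun n => hb n z hzρ
  have h1 := hasDerivAt_tsum_of_isPreconnected (hs.mul_left M) isOpen_ball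
    (convex_ball c ρ).isPreconnected hB'
    (fun n w hw => (norm_mul_le _ _).trans (mul_le_mul (hM' w hw) (hb n w hw) (norm_nonneg _) hM0))
    (mem_ball_self (dist_nonneg.trans_lt hρ1)) (by simp [hc]) hzρ
  refine (h1.const_add 1).congr_deriv ?_
  rw [hsz.tsum_mul_left, hsz.tsum_eq_zero_add, h0]

/-- fundamental solution together with a left inverse -/
theorem exists_sol_inv {c : ℂ} {R : ℝ} {C : ℂ → 𝔸} (hC : DifferentiableOn ℂ C (ball c R)) :
    ∃ A B : ℂ → 𝔸, A c = 1 ∧ B c = 1 ∧ ∀ z ∈ ball c R, HasDerivAt A (C z * A z) z ∧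
      HasDerivAt B (-(B z * C z)) z ∧ B z * A z = 1 := by
  obtain ⟨A, hA1, hA⟩ := exists_sol hC
  let e : 𝔸 ≃L[ℂ] 𝔸ᵐᵒᵖ := MulOpposite.opContinuousLinearEquiv ℂ
  obtain ⟨B, hB1, hB⟩ := exists_sol (c := c) (R := R) (C := fun z => e (-C z))
    (e.differentiable.comp_differentiableOn hC.neg)
  have hB' : ∀ z ∈ ball c R, HasDerivAt (fun z => e.symm (B z)) (-(e.symm (B z) * C z)) z :=
    fun z hz => (e.symm.toContinuousLinearMap.hasFDerivAt.comp_hasDerivAt z (hB z hz)).congr_deriv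
      (by simp [e])
  refine ⟨A, fun z => e.symm (B z), hA1, by simp [e, hB1], fun z hz => ⟨hA z hz, hB' z hz, ?_⟩⟩
  have hd : ∀ z ∈ ball c R, HasDerivAt (fun z => e.symm (B z) * A z) 0 z := fun z hz =>
    ((hB' z hz).mul (hA z hz)).congr_deriv (by simp [mul_assoc])
  have := isOpen_ball.is_const_of_deriv_eq_zero (convex_ball c R).isPreconnected
    (fun z hz => (hd z hz).differentiableAt.differentiableWithinAt)
    (fun z hz => (hd z hz).deriv) hz (mem_ball_self (dist_nonneg.trans_lt (mem_ball.1 hz)))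
  simpa [e, hA1, hB1] using this

end Alg

section Vec

variable {E : Type*} [NormedAddCommGroup E] [NormedSpace ℂ E] [CompleteSpace E]

/-- local uniqueness -/
lemma uniq {t0 : ℂ} {C : ℂ → E →L[ℂ] E} (hC : ∀ᶠ t in 𝓝 t0, DifferentiableAt ℂ C t)
    {v w : ℂ → E} (hv : ∀ᶠ t in 𝓝 t0, HasDerivAt v (C t (v t)) t)
    (hw : ∀ᶠ t in 𝓝 t0, HasDerivAt w (C t (w t)) t) (h0 : v t0 = w t0) : v =ᶠ[𝓝 t0] w := by
  obtain ⟨ρ, hρ, hb⟩ := Metric.eventually_nhds_iff_ball.1 (hC.and (hv.and hw))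
  obtain ⟨A, B, -, hB1, hAB⟩ := exists_sol_inv (c := t0) (R := ρ) (C := C)
    fun z hz => (hb z hz).1.differentiableWithinAt
  have hd : ∀ z ∈ ball t0 ρ, HasDerivAt (fun z => B z (v z - w z)) 0 z := fun z hz =>
    ((hAB z hz).2.1.clm_apply ((hb z hz).2.1.sub (hb z hz).2.2)).congr_deriv (by simp)
  have hu : ∀ᶠ t in 𝓝 t0, IsUnit (B t) :=
    (hAB t0 (mem_ball_self hρ)).2.1.continuousAt.eventually
      (Units.isOpen.mem_nhds (show IsUnit (B t0) by rw [hB1]; exact isUnit_one))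
  filter_upwards [hu, ball_mem_nhds t0 hρ] with z hz hzb
  have h1 := isOpen_ball.is_const_of_deriv_eq_zero (convex_ball t0 ρ).isPreconnected
    (fun z hz => (hd z hz).differentiableAt.differentiableWithinAt)
    (fun z hz => (hd z hz).deriv) hzb (mem_ball_self hρ)
  obtain ⟨u, hu⟩ := hz
  have h2 : (↑u⁻¹ * B z : E →L[ℂ] E) (v z - w z) = 0 := by
    rw [ContinuousLinearMap.mul_apply, h1, h0]; simp
  rw [← hu, Units.inv_mul] at h2
  exact sub_eq_zero.1 (by simpa using h2)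

/-- an invariant of local horizontal sections is an invariant of every horizontal section on a
connected open set -/
theorem transport {α : Type*} {U : Set ℂ} (hU : IsOpen U) (hU' : IsPreconnected U)
    {C : ℂ → E →L[ℂ] E} (hC : DifferentiableOn ℂ C U) {N : ℂ → E → α}
    (hloc : ∀ t0 ∈ U, ∀ b : E, ∃ w : ℂ → E, w t0 = b ∧
      ∀ᶠ t in 𝓝 t0, HasDerivAt w (C t (w t)) t ∧ N t (w t) = N t0 b)
    {v : ℂ → E} (hv : ∀ t ∈ U, HasDerivAt v (C t (v t)) t) {x y : ℂ} (hx : x ∈ U) (hy : y ∈ U) :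
    N x (v x) = N y (v y) := by
  refine hU'.induction₂' (fun x y => N x (v x) = N y (v y)) (fun t0 ht0 => ?_)
    (fun _ _ _ _ _ _ h1 h2 => h1.trans h2) hx hy
  obtain ⟨w, hw0, hw⟩ := hloc t0 ht0 (v t0)
  have hn := hU.mem_nhds ht0
  have := uniq (Filter.mem_of_superset hn fun t ht => hC.differentiableAt (hU.mem_nhds ht))
    (Filter.mem_of_superset hn hv) (hw.mono fun _ h => h.1) hw0.symm
  refine eventually_nhdsWithin_of_eventually_nhds ?_
  filter_upwards [this, hw] with t h1 h2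
  rw [h1, h2.2]
  exact ⟨rfl, rfl⟩

/-- Cauchy bound for a connection whose local horizontal sections keep `N` -/
theorem conn_bound {α : Type*} {c : ℂ} {R K : ℝ} (hR : 0 < R) {C : ℂ → E →L[ℂ] E}
    (hC : DifferentiableOn ℂ C (ball c R)) {N : ℂ → E → α}
    (hloc : ∀ t0 ∈ ball c R, ∀ b : E, ∃ w : ℂ → E, w t0 = b ∧
      ∀ᶠ t in 𝓝 t0, HasDerivAt w (C t (w t)) t ∧ N t (w t) = N t0 b)
    (hK : ∀ z ∈ ball c R, ∀ a b : E, N z b = N c a → ‖b‖ ≤ K * ‖a‖) (a : E) :
    ‖C c a‖ ≤ 2 * K / R * ‖a‖ := by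
  obtain ⟨A, hA1, hA⟩ := exists_sol hC
  have hv : ∀ t ∈ ball c R, HasDerivAt (fun t => A t a) (C t (A t a)) t := fun t ht =>
    ((hA t ht).clm_apply (hasDerivAt_const t a)).congr_deriv (by simp)
  have hs : closedBall c (R / 2) ⊆ ball c R := closedBall_subset_ball (half_lt_self hR)
  have h1 := Complex.norm_deriv_le_of_forall_mem_sphere_norm_le (c := c) (f := fun t => A t a)
    (C := K * ‖a‖) (half_pos hR)
    (DifferentiableOn.diffContOnCl_ball
      (fun t ht => (hv t ht).differentiableAt.differentiableWithinAt) hs)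
    fun z hz => hK z (hs (sphere_subset_closedBall hz)) a _ (by
      have := transport isOpen_ball (convex_ball c R).isPreconnected hC hloc hv
        (hs (sphere_subset_closedBall hz)) (mem_ball_self hR)
      simpa [hA1] using this)
  rw [(hv c (mem_ball_self hR)).deriv, hA1] at h1
  refine (le_of_eq (by simp)).trans (h1.trans_eq ?_)
  field_simp

end Vec

section Mat

open Matrix

variable {ι : Type*} [Fintype ι] [DecidableEq ι]

/-- a matrix as a continuous linear map -/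
noncomputable def clm (A : Matrix ι ι ℂ) : (ι → ℂ) →L[ℂ] (ι → ℂ) :=
  LinearMap.toContinuousLinearMap (Matrix.toLin' A)

@[simp] lemma clm_apply (A : Matrix ι ι ℂ) (a : ι → ℂ) : clm A a = A *ᵥ a := rfl

lemma clm_diff {U : Set ℂ} {C : ℂ → Matrix ι ι ℂ}
    (hC : ∀ i j, DifferentiableOn ℂ (fun z => C z i j) U) :
    DifferentiableOn ℂ (fun z => clm (C z)) U := by
  have : (fun z => clm (C z)) = fun z => ∑ i, ∑ j, C z i j • clm (Matrix.single i j 1) := by
    funext z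
    ext1 a
    funext k
    simp [Matrix.mulVec, dotProduct, Matrix.single, ite_and, Finset.sum_apply]
  rw [this]
  exact .fun_sum fun i _ => .fun_sum fun j _ => (hC i j).smul_const _

/-- fundamental matrix on the whole disc -/
theorem mat_sol {c : ℂ} {R : ℝ} {C : ℂ → Matrix ι ι ℂ}
    (hC : ∀ i j, DifferentiableOn ℂ (fun z => C z i j) (ball c R)) :
    ∃ A : ℂ → Matrix ι ι ℂ, A c = 1 ∧ ∀ z ∈ ball c R, (A z).det ≠ 0 ∧
      (∀ i j, HasDerivAt (fun z => A z i j) ((C z * A z) i j) z) ∧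
      ∀ a, HasDerivAt (fun z => A z *ᵥ a) (C z *ᵥ (A z *ᵥ a)) z := by
  obtain ⟨A, B, hA1, -, h⟩ := exists_sol_inv (clm_diff hC)
  have e : ∀ z a, LinearMap.toMatrix' (A z : (ι → ℂ) →ₗ[ℂ] (ι → ℂ)) *ᵥ a = A z a := fun z a => by
    rw [← Matrix.toLin'_apply, Matrix.toLin'_toMatrix']; rfl
  have hv : ∀ z ∈ ball c R, ∀ a, HasDerivAt (fun z => A z a) (C z *ᵥ A z a) z := fun z hz a =>
    ((h z hz).1.clm_apply (hasDerivAt_const z a)).congr_deriv (by simp)
  refine ⟨fun z => LinearMap.toMatrix' (A z : (ι → ℂ) →ₗ[ℂ] (ι → ℂ)), ?_, fun z hz =>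
    ⟨?_, fun i j => ?_, fun a => by simpa only [e] using hv z hz a⟩⟩
  · simp only [hA1]; exact LinearMap.toMatrix'_one
  · have : LinearMap.toMatrix' (B z : (ι → ℂ) →ₗ[ℂ] (ι → ℂ)) *
        LinearMap.toMatrix' (A z : (ι → ℂ) →ₗ[ℂ] (ι → ℂ)) = 1 := by
      rw [← LinearMap.toMatrix'_mul, ← ContinuousLinearMap.coe_mul, (h z hz).2.2]
      exact LinearMap.toMatrix'_one
    exact (Matrix.isUnit_det_of_left_inverse this).ne_zero
  · refine ((hasDerivAt_pi.1 (hv z hz (Pi.single j 1))) i).congr_deriv ?_ |>.congr_of_eventuallyEq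
      (.of_forall fun w => by simp [LinearMap.toMatrix'_apply])
    simp [Matrix.mul_apply, Matrix.mulVec, dotProduct, LinearMap.toMatrix'_apply]

/-- Cauchy bound, matrix form -/
theorem mat_conn_bound {α : Type*} {c : ℂ} {R K : ℝ} (hR : 0 < R) {C : ℂ → Matrix ι ι ℂ}
    (hC : ∀ i j, DifferentiableOn ℂ (fun z => C z i j) (ball c R)) {N : ℂ → (ι → ℂ) → α}
    (hloc : ∀ t0 ∈ ball c R, ∀ b, ∃ w : ℂ → ι → ℂ, w t0 = b ∧
      ∀ᶠ t in 𝓝 t0, HasDerivAt w (C t *ᵥ w t) t ∧ N t (w t) = N t0 b)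
    (hK : ∀ z ∈ ball c R, ∀ a b, N z b = N c a → ‖b‖ ≤ K * ‖a‖) (i j : ι) :
    ‖C c i j‖ ≤ 2 * K / R := by
  have h := conn_bound hR (clm_diff hC) hloc hK (Pi.single j 1)
  rw [Pi.norm_single, norm_one, mul_one] at h
  refine le_trans (le_of_eq ?_) ((norm_le_pi_norm _ i).trans h)
  simp

end Mat

end Ode
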