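import Pool.Agent.Lib.MP_5c318e_ag.P.Hor
import Pool.Agent.Lib.MP_5c318e_ag.W.FibLift
import Pool.Agent.Lib.MP_5c318e_ag.W.FibRed

/-! A horizontal field of moderate growth on a general slice is the restriction of a rational
horizontal field. -/

set_option autoImplicit false
set_option linter.unusedSectionVars false

namespace Pool.Agent.Lib.MP_5c318e_ag.Fl

open Filter Topology Matrix Set MeasureTheory

variable {ω γ : Type} [Fintype ω] [DecidableEq ω] [Fintype γ] [DecidableEq γ]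
  {K : Type} [Field K] [Algebra ℂ K] {B : Cht (ω ⊕ γ) K} {g : MvPolynomial (ω ⊕ γ) ℂ}
  {r : Type} [Fintype r] [DecidableEq r]

theorem der_elt (φ : B.O) (p : Pt B.O) (j : γ) :
    HasDerivAt (fun t : ℂ => B.D.sec p (B.D.π p + t • ex ω j) φ)
      (p ⟨B.der (Sum.inr j) φ, B.der_mem _ φ φ.2⟩) 0 := by
  rw [← B.fd_eq]
  exact der_line (B.hol φ p) _

theorem pow_pred (x : ℂ) (N : ℕ) : (N : ℂ) * x ^ (N - 1) * x = N * x ^ N := by
  cases N with
  | zero => simp
  | succ n => rw [Nat.add_sub_cancel, pow_succ, mul_assoc]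

/-- the connection is rational -/
theorem Par.cn_rat (P : Par B.D g r) (h : Fini (Algebra.ofId ℂ B.O) B.z) :
    ∃ (e : B.O) (c : γ → r → r → B.O), ∀ p : Pt B.O, MvPolynomial.eval (B.D.π p) g ≠ 0 →
      p e ≠ 0 ∧ ∀ j a b, P.cn j p a b * p e = p (c j a b) := by
  obtain ⟨C, -⟩ := B.cov h
  obtain ⟨A, N, hb⟩ := P.cn_bd C
  have l : ∀ p, MvPolynomial.eval (B.D.π p) (g * C.Δ) ≠ 0 → MvPolynomial.eval (B.D.π p) g ≠ 0 :=
    fun p hp => left_ne_zero_of_mul (by simpa using hp)
  choose c hc using fun j a b => B.ratmod h (g * C.Δ) (u := fun p => P.cn j p a b)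
    (fun p hp => P.cn_hol (l p hp) j a b) fun p hp => hb j a b p (l p hp)
  refine ⟨MvPolynomial.aeval B.z (g * C.Δ) ^ N, c, fun p hp => ?_⟩
  have : MvPolynomial.eval (B.D.π p) (g * C.Δ) ≠ 0 := by
    rw [map_mul]; exact mul_ne_zero hp (C.Δ_ne p)
  rw [map_pow, B.apply_aeval]
  exact ⟨pow_ne_zero _ this, fun j a b => hc j a b p this⟩

theorem Par.vec (P : Par B.D g r) (h : Fini (Algebra.ofId ℂ B.O) B.z) (hg : g ≠ 0) :
    ∀ᵐ w : ω → ℂ, ∀ (u : Pt B.O → r → ℂ) (A : ℝ) (N : ℕ),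
      (∀ p, wc (B.D.π p) = w → MvPolynomial.eval (B.D.π p) g ≠ 0 →
        (∀ᶠ q in 𝓝 p, wc (B.D.π q) = wc (B.D.π p) → u q = P.tr p q *ᵥ u p) ∧
        ∀ a, ‖u p a‖ ≤ A * mg g (B.D.π p) ^ N) →
      ∃ U : r → K, ∀ p : Pt B.O, MvPolynomial.eval (B.D.π p) g ≠ 0 → (∀ a, p.Reg (U a)) ∧
        (∀ᶠ q in 𝓝 p, wc (B.D.π q) = wc (B.D.π p) →
          (fun a => q.ev (U a)) = P.tr p q *ᵥ fun a => p.ev (U a)) ∧
        (wc (B.D.π p) = w → ∀ a, p.ev (U a) = u p a) := by
  obtain ⟨e, c, hc⟩ := P.cn_rat h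
  set y : B.O := MvPolynomial.aeval B.z g with hy
  have ey : ∀ p : Pt B.O, MvPolynomial.eval (B.D.π p) g = p y := fun p => (B.apply_aeval p g).symm
  let dy : γ → B.O := fun j => ⟨B.der (Sum.inr j) y, B.der_mem _ y y.2⟩
  filter_upwards [ae_all_iff.2 fun N : ℕ => B.hor hg (e * y)
    fun j a b => y * c j a b + if a = b then N * e * dy j else 0] with w hw u A N hu
  choose ψ hψ using fun a => B.lift h g w (u := fun p => u p a)
    (fun p h1 h2 => P.diff_of_hor h2 h1 (hu p h1 h2).1 a) fun p h1 h2 => (hu p h1 h2).2 a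
  have sm : ∀ (p : Pt B.O) (v : r → B.O) j a, ∑ b, p (y * c j a b +
      if a = b then N * e * dy j else 0) * p (v b) =
      p y * ∑ b, p (c j a b) * p (v b) + N * p e * p (dy j) * p (v a) := fun p v j a => by
    simp [add_mul, Finset.sum_add_distrib, Finset.mul_sum, mul_assoc, apply_ite p]
  obtain ⟨v, hv, hv'⟩ := hw N ψ fun j a p h1 h2 => by
    have t := tend_line (B.D.π p) (ex ω j)
    have k1 := (P.der_of_hor h2 (hu p h1 h2).1 j a).fun_mul ((der_elt y p j).fun_pow N)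
    have k2 := (der_elt (ψ a) p j).unique (k1.congr_of_eventuallyEq (by
      filter_upwards [((B.D.tendsto_sec p).comp t).eventually (Par.ne_ev h2),
        t.eventually (B.D.π_sec_ev p)] with s k3 k4
      rw [← hψ a (B.D.sec p (B.D.π p + s • ex ω j)) (by rw [k4, wc_line, h1]) k3, ey]))
    simp only [zero_smul, add_zero, B.D.sec_self] at k2
    rw [sm, B.fd_eq, k2, map_mul]
    simp only [← hψ _ p h1 h2, ey, ← (hc p h2).2, Finset.mul_sum, Finset.sum_mul, mul_add]
    congr 1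
    · exact Finset.sum_congr rfl fun b _ => by ring
    · linear_combination (p e * u p a * p (dy j)) * pow_pred (p y) N
  have ev : ∀ p : Pt B.O, MvPolynomial.eval (B.D.π p) g ≠ 0 → ∀ a,
      p.Reg ((v a : K) / y ^ N) ∧ p.ev ((v a : K) / y ^ N) = p (v a) / p y ^ N := fun p hp a => by
    rw [ey] at hp
    have y0 : (y : K) ≠ 0 := fun k => hp (by rw [show y = 0 from Subtype.ext k, map_zero])
    have k1 : p (y ^ N) ≠ 0 := by rw [map_pow]; exact pow_ne_zero _ hp
    have k2 : (v a : K) / y ^ N * (y ^ N : B.O) = v a := by push_cast; field_simp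
    exact ⟨⟨_, _, k1, k2⟩, by rw [p.ev_eq k1 k2, map_pow]⟩
  refine ⟨fun a => v a / y ^ N, fun p hp => ⟨fun a => (ev p hp a).1, ?_, fun h1 a => ?_⟩⟩
  · refine P.hor_of_der (u := fun q a => q.ev ((v a : K) / y ^ N)) hp ?_
    filter_upwards [Par.ne_ev hp] with q hq a
    have e1 : (fun z => (B.D.sec q z).ev ((v a : K) / y ^ N)) =ᶠ[𝓝 (B.D.π q)]
        fun z => B.D.sec q z (v a) / B.D.sec q z y ^ N :=
      ((B.D.tendsto_sec q).eventually (Par.ne_ev hq)).mono fun z hz => (ev _ hz a).2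
    have hq' : q y ≠ 0 := ey q ▸ hq
    have d : DifferentiableAt ℂ (fun z => (B.D.sec q z).ev ((v a : K) / y ^ N)) (B.D.π q) :=
      ((B.hol (v a) q).fun_mul (((B.hol y q).fun_pow N).fun_inv
        (by simpa only [B.D.sec_self] using pow_ne_zero N hq'))).congr_of_eventuallyEq
        (e1.mono fun z hz => hz.trans (div_eq_mul_inv _ _))
    refine ⟨d, fun j => ?_⟩
    have k1 := (der_elt (v a) q j).fun_div ((der_elt y q j).fun_pow N)
      (by simpa only [zero_smul, add_zero, B.D.sec_self] using pow_ne_zero N hq')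
    have k2 := (der_line d (ex ω j)).unique (k1.congr_of_eventuallyEq
      ((tend_line (B.D.π q) (ex ω j)).eventually e1))
    simp only [zero_smul, add_zero, B.D.sec_self] at k2
    have k3 : e * y * ⟨B.der (Sum.inr j) (v a), B.der_mem _ _ (v a).2⟩ =
        ∑ b, (y * c j a b + if a = b then N * e * dy j else 0) * v b :=
      Subtype.ext (by simpa using hv j a)
    have k4 := congrArg q k3
    simp only [map_sum, map_mul q _ (v _)] at k4
    rw [sm, map_mul, map_mul] at k4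
    simp only [← (hc q hq).2] at k4
    have k5 : ∑ b, P.cn j q a b * q e * q (v b) = q e * ∑ b, P.cn j q a b * q (v b) := by
      rw [Finset.mul_sum]; exact Finset.sum_congr rfl fun b _ => by ring
    rw [k2]
    simp only [(ev q hq _).2, ← mul_div_assoc, ← Finset.sum_div]
    rw [div_eq_div_iff (pow_ne_zero _ (pow_ne_zero _ hq')) (pow_ne_zero _ hq')]
    refine mul_left_cancel₀ (mul_ne_zero (hc q hq).1 hq') ?_
    rw [k5] at k4
    linear_combination (q y ^ N) ^ 2 * k4 -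
      (q e * q (v a) * q (dy j) * q y ^ N) * pow_pred (q y) N
  · rw [(ev p hp a).2, hv' a p h1, ← hψ a p h1 hp, ey, mul_div_cancel_right₀]
    exact pow_ne_zero _ (ey p ▸ hp)

end Pool.Agent.Lib.MP_5c318e_ag.Fl
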